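import Pool.Agent.H306G.Defs

set_option autoImplicit false
open Finset

namespace H306G

open scoped Nat

lemma card_res (K m : ℕ) (r : ZMod m) :
    ((range K).filter (fun i => (((i + 1 : ℕ)) : ZMod m) = r)).card ≤ K / m + 1 := by
  have h : ∀ i ∈ (range K).filter (fun i => (((i + 1 : ℕ)) : ZMod m) = r),
      (i+1) / m ∈ range (K / m + 1) := by
    intro i hi
    rw [mem_filter, mem_range] at hi
    rw [mem_range]
    exact Nat.lt_succ_of_le (Nat.div_le_div_right hi.1)
  refine (Finset.card_le_card_of_injOn (fun i => (i+1)/m) h ?_).trans (by simp)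
  intro i hi j hj hij
  simp only [coe_filter, Set.mem_setOf_eq, mem_range] at hi hj
  have h1 : (((i+1 : ℕ)) : ZMod m) = ((j+1 : ℕ) : ZMod m) := hi.2.trans hj.2.symm
  rw [ZMod.natCast_eq_natCast_iff'] at h1
  have h2 := Nat.div_add_mod (i+1) m
  have h3 := Nat.div_add_mod (j+1) m
  simp only at hij
  rw [hij, h1, h3] at h2
  omega

lemma card_roots (K p j : ℕ) (hp : p.Prime) (hp2 : p ≠ 2) (hj : 0 < j) :
    ((range K).filter (fun i => p ^ j ∣ 4 * (i+1)^2 + 1)).card ≤ 2 * (K / p ^ j + 1) := by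
  rcases ((range K).filter (fun i => p ^ j ∣ 4 * (i+1)^2 + 1)).eq_empty_or_nonempty with h | ⟨a, ha⟩
  · rw [h]; simp
  have hpi : Prime (p : ℤ) := Nat.prime_iff_prime_int.1 hp
  have h2 : ((p ^ j : ℕ) : ℤ) ∣ 4 * ((a + 1 : ℕ) : ℤ)^2 + 1 := by
    rw [mem_filter] at ha
    exact_mod_cast ha.2
  have hpj : (p : ℤ) ∣ ((p ^ j : ℕ) : ℤ) := by
    push_cast
    exact dvd_pow_self _ hj.ne'
  have hp2' : ¬ (p : ℤ) ∣ 2 := by
    intro hd
    have h5 : p ∣ 2 := by exact_mod_cast hd
    exact hp2 ((Nat.prime_dvd_prime_iff_eq hp Nat.prime_two).1 h5)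
  have hc4 : IsCoprime ((p ^ j : ℕ) : ℤ) 4 := by
    push_cast
    refine IsCoprime.pow_left ?_
    rw [hpi.coprime_iff_not_dvd]
    intro hd
    have h5 : (p : ℤ) ∣ 2 * 2 := by norm_num; exact hd
    rcases hpi.dvd_or_dvd h5 with h6 | h6 <;> exact hp2' h6
  have hsub : (range K).filter (fun i => p ^ j ∣ 4 * (i+1)^2 + 1) ⊆
     (range K).filter (fun i => (((i + 1 : ℕ)) : ZMod (p^j)) = ((a + 1 : ℕ) : ZMod (p^j))) ∪
     (range K).filter (fun i => (((i + 1 : ℕ)) : ZMod (p^j)) = -((a + 1 : ℕ) : ZMod (p^j))) := by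
    intro i hi
    rw [mem_filter] at hi
    rw [mem_union, mem_filter, mem_filter]
    have h1 : ((p ^ j : ℕ) : ℤ) ∣ 4 * ((i + 1 : ℕ) : ℤ)^2 + 1 := by exact_mod_cast hi.2
    have h3 : ((p ^ j : ℕ) : ℤ) ∣ 4 * ((((i + 1 : ℕ) : ℤ) - ((a+1 : ℕ) : ℤ)) *
        (((i + 1 : ℕ) : ℤ) + ((a+1 : ℕ) : ℤ))) := by
      have h6 := dvd_sub h1 h2
      have e : 4 * ((((i + 1 : ℕ) : ℤ) - ((a+1 : ℕ) : ℤ)) *
        (((i + 1 : ℕ) : ℤ) + ((a+1 : ℕ) : ℤ))) = 4 * ((i + 1 : ℕ) : ℤ)^2 + 1 -
          (4 * ((a + 1 : ℕ) : ℤ)^2 + 1) := by ring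
      rw [e]; exact h6
    have h4 := hc4.dvd_of_dvd_mul_left h3
    by_cases hd : (p : ℤ) ∣ ((i + 1 : ℕ) : ℤ) - ((a+1 : ℕ) : ℤ)
    · left
      refine ⟨hi.1, ?_⟩
      have h7 : ¬ (p : ℤ) ∣ ((i + 1 : ℕ) : ℤ) + ((a+1 : ℕ) : ℤ) := by
        intro hd2
        have h8 : (p : ℤ) ∣ 2 * ((a+1 : ℕ) : ℤ) := by
          have := dvd_sub hd2 hd
          have e : ((i + 1 : ℕ) : ℤ) + ((a+1 : ℕ) : ℤ) - (((i + 1 : ℕ) : ℤ) - ((a+1 : ℕ) : ℤ)) =
            2 * ((a+1 : ℕ) : ℤ) := by ring
          rwa [e] at this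
        have h9 : (p : ℤ) ∣ 4 * ((a + 1 : ℕ) : ℤ)^2 := by
          have e : 4 * ((a + 1 : ℕ) : ℤ)^2 = (2 * ((a+1 : ℕ) : ℤ)) * (2 * ((a+1 : ℕ) : ℤ)) := by ring
          rw [e]; exact h8.mul_right _
        have h10 : (p : ℤ) ∣ 1 := (dvd_add_right h9).1 (hpj.trans h2)
        exact hpi.not_unit (isUnit_of_dvd_one h10)
      have h11 : IsCoprime ((p ^ j : ℕ) : ℤ) (((i + 1 : ℕ) : ℤ) + ((a+1 : ℕ) : ℤ)) := by
        push_cast
        refine IsCoprime.pow_left ?_
        rw [hpi.coprime_iff_not_dvd]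
        push_cast at h7
        exact h7
      have h12 := h11.dvd_of_dvd_mul_right h4
      have h13 : (((a + 1 : ℕ) : ℤ) : ZMod (p^j)) = (((i+1 : ℕ) : ℤ) : ZMod (p^j)) :=
        (ZMod.intCast_eq_intCast_iff_dvd_sub _ _ _).2 h12
      simpa using h13.symm
    · right
      refine ⟨hi.1, ?_⟩
      have h11 : IsCoprime ((p ^ j : ℕ) : ℤ) (((i + 1 : ℕ) : ℤ) - ((a+1 : ℕ) : ℤ)) := by
        push_cast
        refine IsCoprime.pow_left ?_
        rw [hpi.coprime_iff_not_dvd]
        push_cast at hd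
        exact hd
      have h12 := h11.dvd_of_dvd_mul_left h4
      have h13 : ((-((a + 1 : ℕ) : ℤ) : ℤ) : ZMod (p^j)) = (((i+1 : ℕ) : ℤ) : ZMod (p^j)) := by
        refine (ZMod.intCast_eq_intCast_iff_dvd_sub _ _ _).2 ?_
        rwa [sub_neg_eq_add]
      simpa using h13.symm
  refine (card_le_card hsub).trans ((card_union_le _ _).trans ?_)
  have h5 := card_res K (p ^ j) ((a + 1 : ℕ) : ZMod (p^j))
  have h6 := card_res K (p ^ j) (-((a + 1 : ℕ) : ZMod (p^j)))
  omega

theorem A_thm : A_stmt := by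
  intro K hK
  set B := 4 * K ^ 2 + 1 with hB
  set W := (range (4 * K ^ 2 + 2)).filter (fun p => p.Prime ∧ p % 4 = 1) with hW
  obtain ⟨P, hPdef⟩ : ∃ P, P = ∏ i ∈ range K, (4 * (i+1)^2 + 1) := ⟨_, rfl⟩
  have hP0 : P ≠ 0 := by
    rw [hPdef]
    exact prod_ne_zero_iff.2 (fun i _ => by positivity)
  have hiB : ∀ i ∈ range K, 4 * (i+1)^2 + 1 ≤ B := by
    intro i hi
    have h1 : i + 1 ≤ K := mem_range.1 hi
    rw [hB]
    gcongr
  have hfac : ∀ p, p.Prime → p ≠ 2 →
      P.factorization p ≤ 2 * (K !).factorization p + 2 * Nat.log p B := by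
    intro p hp hp2
    have h1 : P.factorization p = ∑ i ∈ range K, (4 * (i+1)^2+1).factorization p := by
      rw [hPdef, Nat.factorization_prod (fun i _ => by positivity)]
      simp
    rw [h1]
    obtain ⟨b, hb⟩ : ∃ b, b = Nat.log p B + 1 := ⟨_, rfl⟩
    have h2 : ∀ i ∈ range K, (4 * (i+1)^2+1).factorization p =
        ∑ j ∈ Ico 1 b, if p ^ j ∣ 4 * (i+1)^2 + 1 then 1 else 0 := by
      intro i hi
      rw [Nat.factorization_eq_card_pow_dvd_of_lt (b := b) hp (by positivity) ?_, card_filter]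
      rw [hb]
      exact lt_of_le_of_lt (hiB i hi) (Nat.lt_pow_succ_log_self hp.one_lt _)
    rw [sum_congr rfl h2, sum_comm]
    have h3 : ∀ j ∈ Ico 1 b, (∑ i ∈ range K, if p ^ j ∣ 4 * (i+1)^2 + 1 then 1 else 0) ≤
        2 * (K / p ^ j) + 2 := by
      intro j hj
      rw [← card_filter]
      have := card_roots K p j hp hp2 (mem_Ico.1 hj).1
      omega
    refine (sum_le_sum h3).trans ?_
    rw [sum_add_distrib, ← mul_sum, Nat.factorization_factorial hp (b := b) ?_]
    · simp only [sum_const, Nat.card_Ico, smul_eq_mul]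
      rw [hb]
      omega
    · rw [hb]
      exact Nat.lt_succ_of_le (Nat.log_mono_right (by rw [hB]; nlinarith))
  have hpf : ∀ p ∈ P.primeFactors, p.Prime ∧ p ≠ 2 ∧ p ∈ W := by
    intro p hp
    have hpp : p.Prime := Nat.prime_of_mem_primeFactors hp
    have hd : p ∣ P := Nat.dvd_of_mem_primeFactors hp
    rw [hPdef, hpp.prime.dvd_finset_prod_iff] at hd
    obtain ⟨i, hi, hdi⟩ := hd
    have hp2 : p ≠ 2 := by
      rintro rfl
      omega
    have hle : p ≤ B := (Nat.le_of_dvd (by positivity) hdi).trans (hiB i hi)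
    refine ⟨hpp, hp2, ?_⟩
    rw [hW, mem_filter, mem_range]
    refine ⟨by rw [hB] at hle; omega, hpp, ?_⟩
    haveI : Fact p.Prime := ⟨hpp⟩
    have h3 : p % 4 ≠ 3 := by
      refine ZMod.mod_four_ne_three_of_sq_eq_neg_one (p := p) (y := 2 * ((i + 1 : ℕ) : ZMod p)) ?_
      have h4 : ((4 * (i+1)^2 + 1 : ℕ) : ZMod p) = 0 := (ZMod.natCast_eq_zero_iff _ _).2 hdi
      push_cast at h4 ⊢
      linear_combination h4
    have h5 := hpp.eq_two_or_odd
    omega
  have hup : P ≤ (K !) ^ 2 * B ^ (2 * W.card) := by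
    calc P = ∏ p ∈ P.primeFactors, p ^ P.factorization p :=
          (Nat.factorization_prod_pow_eq_self hP0).symm
      _ ≤ ∏ p ∈ P.primeFactors, ((p ^ (K !).factorization p) ^ 2 * B ^ 2) := by
          refine prod_le_prod' (fun p hp => ?_)
          obtain ⟨h1, h2, h3⟩ := hpf p hp
          calc p ^ P.factorization p ≤ p ^ (2 * (K !).factorization p + 2 * Nat.log p B) :=
                Nat.pow_le_pow_right h1.pos (hfac p h1 h2)
            _ = (p ^ (K !).factorization p) ^ 2 * (p ^ Nat.log p B) ^ 2 := by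
                rw [pow_add, pow_mul', pow_mul']
            _ ≤ _ := by
                gcongr
                exact Nat.pow_log_le_self p (by positivity)
      _ = (∏ p ∈ P.primeFactors, p ^ (K !).factorization p) ^ 2 * B ^ (2 * P.primeFactors.card) := by
          rw [prod_mul_distrib, prod_pow, prod_const, pow_mul]
      _ ≤ _ := by
          gcongr
          · calc ∏ p ∈ P.primeFactors, p ^ (K !).factorization p ≤
                ∏ p ∈ P.primeFactors ∪ (K !).primeFactors, p ^ (K !).factorization p := by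
                  refine prod_le_prod_of_subset_of_one_le' subset_union_left (fun p hp _ => ?_)
                  refine Nat.one_le_pow _ _ ?_
                  rcases mem_union.1 hp with h | h
                  · exact (Nat.prime_of_mem_primeFactors h).pos
                  · exact (Nat.prime_of_mem_primeFactors h).pos
              _ = ∏ p ∈ (K !).primeFactors, p ^ (K !).factorization p := by
                  symm
                  refine prod_subset subset_union_right (fun p _ hp => ?_)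
                  have h0 : (K !).factorization p = 0 := by
                    rw [← Nat.support_factorization] at hp
                    exact Finsupp.notMem_support_iff.1 hp
                  rw [h0, pow_zero]
              _ = K ! := Nat.factorization_prod_pow_eq_self (Nat.factorial_ne_zero K)
          · rw [hB]; omega
          · exact fun p hp => (hpf p hp).2.2
  have hlow : 4 ^ K * (K !) ^ 2 ≤ P := by
    calc 4 ^ K * (K !) ^ 2 = ∏ i ∈ range K, (4 * (i+1)^2) := by
          rw [prod_mul_distrib, prod_const, card_range, prod_pow, prod_range_add_one_eq_factorial]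
      _ ≤ P := by
          rw [hPdef]
          exact prod_le_prod' (fun i _ => Nat.le_succ _)
  have hfin : (K !) ^ 2 * 4 ^ K ≤ (K !) ^ 2 * B ^ (2 * W.card) := by
    rw [mul_comm]; exact hlow.trans hup
  exact Nat.le_of_mul_le_mul_left hfin (by positivity)

end H306G
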