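import Pool.Agent.H306G.Defs
import Pool.Agent.H106DD.FL

set_option autoImplicit false
open Finset

namespace H306G

theorem C_rep (D : Finset ℕ) (hD : ∀ p ∈ D, p.Prime ∧ p % 4 = 1) :
    ∃ x y : ℕ, (∏ p ∈ D, p) = x ^ 2 + y ^ 2 := by
  apply Finset.prod_induction (fun p : ℕ => p) (fun n => ∃ x y : ℕ, n = x ^ 2 + y ^ 2)
  · rintro a b ⟨x, y, h1⟩ ⟨u, v, h2⟩
    exact Nat.sq_add_sq_mul h1 h2
  · exact ⟨1, 0, by norm_num⟩
  · intro p hp
    obtain ⟨h1, h2⟩ := hD p hp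
    haveI := Fact.mk h1
    obtain ⟨a, b, hab⟩ := Nat.Prime.sq_add_sq (p := p) (by omega)
    exact ⟨a, b, hab.symm⟩

/-- the embedding of pairs -/
noncomputable def Cmap (q : (ℤ × ℤ) × (ℕ × ℕ)) : ℂ × ℂ :=
  ((((q.2.1 + (-q.1.1).toNat : ℕ) : ℂ) + ((q.2.2 + (-q.1.2).toNat : ℕ) : ℂ) * Complex.I),
   (((q.2.1 + (q.1.1).toNat : ℕ) : ℂ) + ((q.2.2 + (q.1.2).toNat : ℕ) : ℂ) * Complex.I))

theorem C_natC (a b c d : ℕ) (h : (a : ℂ) + (b : ℂ) * Complex.I = (c : ℂ) + (d : ℂ) * Complex.I) :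
    a = c ∧ b = d := by
  have h1 := congrArg Complex.re h
  have h2 := congrArg Complex.im h
  simp at h1 h2
  exact ⟨h1, h2⟩

theorem Cmap_inj : Function.Injective Cmap := by
  rintro ⟨⟨x, y⟩, ⟨i, j⟩⟩ ⟨⟨x', y'⟩, ⟨i', j'⟩⟩ h
  unfold Cmap at h
  simp only [Prod.mk.injEq] at h
  obtain ⟨h1, h2⟩ := C_natC _ _ _ _ h.1
  obtain ⟨h3, h4⟩ := C_natC _ _ _ _ h.2
  simp only [Prod.mk.injEq]
  refine ⟨⟨?_, ?_⟩, ?_, ?_⟩ <;> omega

theorem C_dist (x y : ℤ) (i j n : ℕ) (h : x ^ 2 + y ^ 2 = n) :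
    dist (Cmap ((x, y), (i, j))).1 (Cmap ((x, y), (i, j))).2 = Real.sqrt (n : ℝ) := by
  rw [dist_comm, Complex.dist_eq, Complex.norm_def]
  congr 1
  have hx : (((x.toNat : ℕ) : ℤ)) - (((-x).toNat : ℕ) : ℤ) = x := by omega
  have hy : (((y.toNat : ℕ) : ℤ)) - (((-y).toNat : ℕ) : ℤ) = y := by omega
  have hxR : (((x.toNat : ℕ) : ℝ)) - (((-x).toNat : ℕ) : ℝ) = (x : ℝ) := by exact_mod_cast hx
  have hyR : (((y.toNat : ℕ) : ℝ)) - (((-y).toNat : ℕ) : ℝ) = (y : ℝ) := by exact_mod_cast hy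
  have hR : (x : ℝ) ^ 2 + (y : ℝ) ^ 2 = (n : ℝ) := by exact_mod_cast h
  unfold Cmap
  rw [Complex.normSq_apply]
  simp
  rw [← hR, ← hxR, ← hyR]
  ring

theorem C_thm : C_stmt := by
  classical
  intro D L hD hL
  set n : ℕ := ∏ p ∈ D, p with hn
  have hn0 : 0 < n := Finset.prod_pos (fun p hp => (hD p hp).1.pos)
  obtain ⟨x0, y0, h0⟩ := C_rep D hD
  have hFL := DD106.SFL.FL_thm n D hn0
    (fun p hp => ⟨hD p hp, Finset.dvd_prod_of_mem (fun p : ℕ => p) hp⟩)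
    ⟨(x0 : ℤ), (y0 : ℤ), by rw [hn, h0]; push_cast; ring⟩
  change 2 ^ D.card ≤ (DD106.SFL.FLR n).card at hFL
  set M : ℕ := (L + 1) / 2 with hM
  have hML : L ≤ 2 * M := by omega
  have key : ((DD106.SFL.FLR n) ×ˢ ((range M) ×ˢ (range M))).card ≤
      om (grid L) (Real.sqrt (n : ℝ)) := by
    unfold om
    apply Finset.card_le_card_of_injOn Cmap
    · rintro ⟨⟨x, y⟩, ⟨i, j⟩⟩ hq
      rw [Finset.mem_coe, Finset.mem_product, Finset.mem_product, DD106.SFL.FL_mem,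
        Finset.mem_range, Finset.mem_range] at hq
      obtain ⟨hv, hi, hj⟩ := hq
      simp only at hv hi hj
      have hxL : 2 * |x| ≤ (L : ℤ) := by
        apply abs_le_of_sq_le_sq' _ (by positivity) |>.2
        have : (4 : ℤ) * n ≤ (L : ℤ) ^ 2 := by exact_mod_cast hL
        have h5 : (2 * |x|) ^ 2 = 4 * x ^ 2 := by rw [mul_pow, sq_abs]; ring
        nlinarith [sq_nonneg y]
      have hyL : 2 * |y| ≤ (L : ℤ) := by
        apply abs_le_of_sq_le_sq' _ (by positivity) |>.2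
        have : (4 : ℤ) * n ≤ (L : ℤ) ^ 2 := by exact_mod_cast hL
        have h5 : (2 * |y|) ^ 2 = 4 * y ^ 2 := by rw [mul_pow, sq_abs]; ring
        nlinarith [sq_nonneg x]
      have hx1 := abs_le.mp (show |x| ≤ ((L / 2 : ℕ) : ℤ) by omega)
      have hy1 := abs_le.mp (show |y| ≤ ((L / 2 : ℕ) : ℤ) by omega)
      rw [Finset.mem_coe, Finset.mem_filter, Finset.mem_product]
      refine ⟨⟨?_, ?_⟩, C_dist x y i j n hv⟩
      · unfold grid Cmap
        rw [Finset.mem_image]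
        refine ⟨(i + (-x).toNat, j + (-y).toNat), ?_, rfl⟩
        rw [Finset.mem_product, Finset.mem_range, Finset.mem_range]
        constructor
        · show i + (-x).toNat < L
          omega
        · show j + (-y).toNat < L
          omega
      · unfold grid Cmap
        rw [Finset.mem_image]
        refine ⟨(i + x.toNat, j + y.toNat), ?_, rfl⟩
        rw [Finset.mem_product, Finset.mem_range, Finset.mem_range]
        constructor
        · show i + x.toNat < L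
          omega
        · show j + y.toNat < L
          omega
    · exact Cmap_inj.injOn
  rw [Finset.card_product, Finset.card_product, Finset.card_range] at key
  have h1 : L ^ 2 ≤ (2 * M) ^ 2 := Nat.pow_le_pow_left hML 2
  calc 2 ^ D.card * L ^ 2 ≤ (DD106.SFL.FLR n).card * (2 * M) ^ 2 := Nat.mul_le_mul hFL h1
    _ = 4 * ((DD106.SFL.FLR n).card * (M * M)) := by ring
    _ ≤ 4 * om (grid L) (Real.sqrt (n : ℝ)) := Nat.mul_le_mul_left 4 key

end H306G
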