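import Pool.Agent.H306G.D1

set_option autoImplicit false
open Finset

namespace H306G

/-- the level set -/
noncomputable def lev (S : ℕ) (f : ℝ → ℕ) (t : ℝ) : Finset ℕ := by
  classical exact (Icc 1 S).filter fun b => t ≤ (f (b : ℝ) : ℝ)

theorem mem_lev {S : ℕ} {f : ℝ → ℕ} {t : ℝ} {b : ℕ} :
    b ∈ lev S f t ↔ (1 ≤ b ∧ b ≤ S) ∧ t ≤ (f (b : ℝ) : ℝ) := by
  classical
  simp [lev]

theorem lev_mono {S : ℕ} {f : ℝ → ℕ} {t t' : ℝ} (h : t' ≤ t) : lev S f t ⊆ lev S f t' := by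
  intro b hb
  rw [mem_lev] at hb ⊢
  exact ⟨hb.1, h.trans hb.2⟩

/-- the basic inequality -/
theorem basic {S : ℕ} {f : ℝ → ℕ}
    (hf : ∀ s : ℝ, 0 < s → f s ≠ 0 → ∃ k : ℕ, 1 ≤ k ∧ k ≤ S ∧ s = k) {t t' : ℝ} (ht' : 0 ≤ t') (htt : t' ≤ t)
    {x : ℝ} (hx : 0 < x) :
    ∃ A : Finset ℕ, A ⊆ lev S f t ∧ (∀ b ∈ A, ∃ c ∈ lev S f t', (c : ℝ) = b * x) ∧
      (t - t') * (((lev S f t).card : ℝ) - A.card) ≤
        ∑ b ∈ lev S f t, (f (b : ℝ) : ℝ) - ∑ b ∈ lev S f t, (f ((b : ℝ) * x) : ℝ) := by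
  classical
  set T := lev S f t with hT
  set A : Finset ℕ := T.filter (fun b : ℕ => ∃ c ∈ lev S f t', (c : ℝ) = b * x) with hA
  have hAx : ∀ b ∈ A, ∃ c ∈ lev S f t', (c : ℝ) = b * x := fun b hb => (mem_filter.1 hb).2
  refine ⟨A, filter_subset _ _, hAx, ?_⟩
  choose! φ hφT hφ using hAx
  have hinj : Set.InjOn φ A := by
    intro a ha b hb hab
    have h1 := hφ a ha
    have h2 := hφ b hb
    rw [hab, h2] at h1
    exact_mod_cast (mul_right_cancel₀ hx.ne' h1).symm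
  set V := A.image φ with hV
  have hVc : V.card = A.card := card_image_of_injOn hinj
  have hsumV : ∑ c ∈ V, (f (c : ℝ) : ℝ) = ∑ b ∈ A, (f ((b : ℝ) * x) : ℝ) := by
    rw [hV, sum_image hinj]
    exact sum_congr rfl fun b hb => by rw [hφ b hb]
  -- the elements outside of `A`
  have hout : ∑ b ∈ T \ A, (f ((b : ℝ) * x) : ℝ) ≤ t' * ((T.card : ℝ) - A.card) := by
    have h1 : ∀ b ∈ T \ A, (f ((b : ℝ) * x) : ℝ) ≤ t' := by
      intro b hb
      obtain ⟨hbT, hbA⟩ := mem_sdiff.1 hb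
      by_contra hcon
      push Not at hcon
      apply hbA
      rw [hA, mem_filter]
      refine ⟨hbT, ?_⟩
      have hb1 : (0:ℝ) < b := by
        have := (mem_lev.1 hbT).1.1
        exact_mod_cast this
      have hne : f ((b : ℝ) * x) ≠ 0 := by
        intro h0
        rw [h0] at hcon
        simp at hcon
        linarith
      obtain ⟨k, hk1, hk2, hk3⟩ := hf _ (mul_pos hb1 hx) hne
      refine ⟨k, mem_lev.2 ⟨⟨hk1, hk2⟩, ?_⟩, hk3.symm⟩
      rw [← hk3]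
      exact hcon.le
    have h2 := sum_le_card_nsmul (T \ A) _ t' h1
    rw [nsmul_eq_mul, card_sdiff_of_subset (filter_subset _ _), Nat.cast_sub (card_le_card (filter_subset _ _))] at h2
    rw [mul_comm]
    exact h2
  have hsplit : ∑ b ∈ T, (f ((b : ℝ) * x) : ℝ) =
      ∑ b ∈ T \ A, (f ((b : ℝ) * x) : ℝ) + ∑ b ∈ A, (f ((b : ℝ) * x) : ℝ) :=
    (sum_sdiff (filter_subset _ _)).symm
  -- compare `V` and `T`
  have hV1 : ∑ c ∈ V, (f (c : ℝ) : ℝ) = ∑ c ∈ V \ T, (f (c : ℝ) : ℝ) + ∑ c ∈ V ∩ T, (f (c : ℝ) : ℝ) := by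
    rw [← sdiff_inter_self_left V T]
    exact (sum_sdiff inter_subset_left).symm
  have hT1 : ∑ c ∈ T, (f (c : ℝ) : ℝ) = ∑ c ∈ T \ V, (f (c : ℝ) : ℝ) + ∑ c ∈ V ∩ T, (f (c : ℝ) : ℝ) := by
    rw [inter_comm V T, ← sdiff_inter_self_left T V]
    exact (sum_sdiff inter_subset_left).symm
  have hV2 : ∑ c ∈ V \ T, (f (c : ℝ) : ℝ) ≤ t * ((V \ T).card : ℝ) := by
    have h1 : ∀ c ∈ V \ T, (f (c : ℝ) : ℝ) ≤ t := by
      intro c hc
      obtain ⟨hcV, hcT⟩ := mem_sdiff.1 hc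
      by_contra hcon
      push Not at hcon
      apply hcT
      obtain ⟨b, hb, rfl⟩ := mem_image.1 hcV
      exact mem_lev.2 ⟨(mem_lev.1 (hφT b hb)).1, hcon.le⟩
    have h2 := sum_le_card_nsmul (V \ T) _ t h1
    rw [nsmul_eq_mul] at h2
    rw [mul_comm]
    exact h2
  have hT2 : t * ((T \ V).card : ℝ) ≤ ∑ c ∈ T \ V, (f (c : ℝ) : ℝ) := by
    have h1 : ∀ c ∈ T \ V, t ≤ (f (c : ℝ) : ℝ) := fun c hc => (mem_lev.1 (mem_sdiff.1 hc).1).2
    have h2 := card_nsmul_le_sum (T \ V) _ t h1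
    rw [nsmul_eq_mul] at h2
    rw [mul_comm]
    exact h2
  have hc1 : (V \ T).card + (V ∩ T).card = V.card := card_sdiff_add_card_inter V T
  have hc2 : (T \ V).card + (V ∩ T).card = T.card := by
    rw [inter_comm]
    exact card_sdiff_add_card_inter T V
  have hc3 : ((V \ T).card : ℝ) + ((V ∩ T).card : ℝ) = A.card := by
    rw [← hVc]; exact_mod_cast hc1
  have hc4 : ((T \ V).card : ℝ) + ((V ∩ T).card : ℝ) = T.card := by exact_mod_cast hc2
  have hfin : t * ((T.card : ℝ) - A.card) = t * ((T \ V).card : ℝ) - t * ((V \ T).card : ℝ) := by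
    rw [← hc3, ← hc4]; ring
  rw [hsplit, ← hsumV, hV1, hT1]
  have : (t - t') * ((T.card : ℝ) - A.card) = t * ((T.card : ℝ) - A.card) - t' * ((T.card : ℝ) - A.card) := by ring
  rw [this, hfin]
  linarith

/-- the choice of the level -/
theorem choice {S : ℕ} (hS : 1 ≤ S) (N : ℕ → ℕ) (hN0 : 1 ≤ N 0) (hNS : ∀ j, N j ≤ S) :
    ∃ j < 4 * (Nat.log 2 S + 1) ^ 2,
      (N (j + 1) : ℝ) ≤ (1 + 1 / (2 * ((Nat.log 2 S : ℝ) + 1))) * N j := by
  set l : ℕ := Nat.log 2 S + 1 with hl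
  have hl1 : 1 ≤ l := by omega
  have hlr : ((Nat.log 2 S : ℝ) + 1) = (l : ℝ) := by rw [hl]; push_cast; ring
  rw [hlr]
  have hl0 : (0:ℝ) < l := by exact_mod_cast hl1
  by_contra hcon
  push Not at hcon
  set q : ℝ := 1 + 1 / (2 * (l : ℝ)) with hq
  have hq0 : 0 < q := by positivity
  have h1 : ∀ j ≤ 4 * l ^ 2, q ^ j ≤ (N j : ℝ) := by
    intro j
    induction j with
    | zero => intro _; simpa using (by exact_mod_cast hN0 : (1:ℝ) ≤ N 0)
    | succ j ih =>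
      intro hj
      have h2 := ih (by omega)
      have h3 := hcon j (by omega)
      calc q ^ (j + 1) = q * q ^ j := by ring
        _ ≤ q * N j := mul_le_mul_of_nonneg_left h2 hq0.le
        _ ≤ N (j + 1) := h3.le
  have h2 : (2:ℝ) ≤ q ^ (2 * l) := by
    have h3 := one_add_mul_le_pow (a := 1 / (2 * (l : ℝ))) (by
      have : (0:ℝ) ≤ 1 / (2 * (l : ℝ)) := by positivity
      linarith) (2 * l)
    have h4 : 1 + ((2 * l : ℕ) : ℝ) * (1 / (2 * (l : ℝ))) = 2 := by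
      push_cast
      field_simp
      norm_num
    rw [h4] at h3
    exact h3
  have h3 : (2:ℝ) ^ l ≤ q ^ (4 * l ^ 2) := by
    have h4 : q ^ (4 * l ^ 2) = (q ^ (2 * l)) ^ (2 * l) := by
      rw [← pow_mul]; congr 1; ring
    rw [h4]
    calc (2:ℝ) ^ l ≤ 2 ^ (2 * l) := pow_le_pow_right₀ (by norm_num) (by omega)
      _ ≤ (q ^ (2 * l)) ^ (2 * l) := pow_le_pow_left₀ (by norm_num) h2 _
  have h4 : (2:ℝ) ^ l ≤ S := by
    have h5 := h1 (4 * l ^ 2) le_rfl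
    have h6 : (N (4 * l ^ 2) : ℝ) ≤ S := by exact_mod_cast hNS _
    linarith
  have h5 : 2 ^ l ≤ S := by exact_mod_cast h4
  have h6 : S < 2 ^ l := Nat.lt_pow_succ_log_self (by norm_num) S
  omega

theorem D_thm : D_stmt := by
  intro S f hS hf s0 hs0 hfs0
  classical
  obtain ⟨k0, hk1, hk2, hk3⟩ := hf s0 hs0 (by omega)
  set M : ℝ := (f s0 : ℝ) with hM
  have hM0 : 0 < M := by rw [hM]; exact_mod_cast hfs0
  set l : ℝ := (Nat.log 2 S : ℝ) + 1 with hl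
  have hl1 : 1 ≤ l := by
    have : (0:ℝ) ≤ (Nat.log 2 S : ℝ) := Nat.cast_nonneg _
    linarith
  have hl0 : 0 < l := by linarith
  set h : ℝ := M / (4 * l ^ 2) with hh
  have hh0 : 0 < h := by positivity
  obtain ⟨j, hj, hjN⟩ := choice hS (fun j => (lev S f (M - j * h)).card) (by
    apply card_pos.2
    refine ⟨k0, mem_lev.2 ⟨⟨hk1, hk2⟩, ?_⟩⟩
    simp only [Nat.cast_zero, zero_mul, sub_zero]
    rw [hM, hk3]) (fun j => by
      refine (card_le_card (t := Icc 1 S) ?_).trans (by simp)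
      intro b hb
      exact mem_Icc.2 (mem_lev.1 hb).1)
  set t : ℝ := M - j * h with ht
  set t' : ℝ := M - (j + 1 : ℕ) * h with ht'
  have htt : t - t' = h := by rw [ht, ht']; push_cast; ring
  have ht'0 : 0 ≤ t' := by
    have h1 : ((j + 1 : ℕ) : ℝ) ≤ 4 * l ^ 2 := by
      have h2 : j + 1 ≤ 4 * (Nat.log 2 S + 1) ^ 2 := hj
      have h3 : ((j + 1 : ℕ) : ℝ) ≤ ((4 * (Nat.log 2 S + 1) ^ 2 : ℕ) : ℝ) := by exact_mod_cast h2
      rw [hl]
      push_cast at h3 ⊢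
      linarith
    have h2 : ((j + 1 : ℕ) : ℝ) * h ≤ 4 * l ^ 2 * h := mul_le_mul_of_nonneg_right h1 hh0.le
    have h3 : 4 * l ^ 2 * h = M := by rw [hh]; field_simp
    rw [ht']
    linarith
  have hsub : lev S f t ⊆ lev S f t' := lev_mono (by linarith)
  have hne : (lev S f t).Nonempty := by
    refine ⟨k0, mem_lev.2 ⟨⟨hk1, hk2⟩, ?_⟩⟩
    rw [← hk3]
    have : 0 ≤ (j : ℝ) * h := by positivity
    rw [ht]
    linarith
  refine ⟨lev S f t, hne, fun b hb => (mem_lev.1 hb).1, ?_⟩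
  intro x hx hx1
  obtain ⟨A, hA, hAx, hbas⟩ := basic hf ht'0 (by linarith : t' ≤ t) hx
  have hD1 := D1_thm S (lev S f t') hS (fun b hb => (mem_lev.1 hb).1) x hx hx1 A (hA.trans hsub) hAx
  have hAU : A.card ≤ (lev S f t').card := card_le_card (hA.trans hsub)
  set u : ℝ := ((lev S f t').card : ℝ) with hu
  set τ : ℝ := ((lev S f t).card : ℝ) with hτ
  set a : ℝ := (A.card : ℝ) with ha
  have hD1r : u ≤ l * (u - a) := by
    have h1 : ((lev S f t').card : ℝ) ≤ (((Nat.log 2 S + 1) * ((lev S f t').card - A.card) : ℕ) : ℝ) := by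
      exact_mod_cast hD1
    rw [Nat.cast_mul, Nat.cast_sub hAU] at h1
    push_cast at h1
    exact h1
  have hjN' : u ≤ (1 + 1 / (2 * l)) * τ := hjN
  have hτ0 : 0 ≤ τ := Nat.cast_nonneg _
  -- `τ ≤ 2 l (τ - a)`
  have hkey : τ ≤ 2 * l * (τ - a) := by
    have h1 : l * a ≤ (l - 1) * u := by nlinarith
    have h2 : (l - 1) * u ≤ (l - 1) * ((1 + 1 / (2 * l)) * τ) :=
      mul_le_mul_of_nonneg_left hjN' (by linarith)
    have h3 : (l - 1) * ((1 + 1 / (2 * l)) * τ) = (l - 1) * τ + (l - 1) / (2 * l) * τ := by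
      field_simp
    have h4 : (l - 1) / (2 * l) ≤ 1 / 2 := by
      rw [div_le_div_iff₀ (by positivity) (by norm_num)]
      linarith
    have h5 : (l - 1) / (2 * l) * τ ≤ 1 / 2 * τ := mul_le_mul_of_nonneg_right h4 hτ0
    nlinarith
  rw [htt] at hbas
  have h1 : M * τ ≤ 8 * l ^ 3 * (h * (τ - a)) := by
    have h2 : 8 * l ^ 3 * (h * (τ - a)) = (4 * l ^ 2 * h) * (2 * l * (τ - a)) := by ring
    have h3 : 4 * l ^ 2 * h = M := by rw [hh]; field_simp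
    rw [h2, h3]
    exact mul_le_mul_of_nonneg_left hkey hM0.le
  have h2 : 8 * l ^ 3 * (h * (τ - a)) ≤ 8 * l ^ 3 *
      (∑ b ∈ lev S f t, (f (b : ℝ) : ℝ) - ∑ b ∈ lev S f t, (f ((b : ℝ) * x) : ℝ)) :=
    mul_le_mul_of_nonneg_left hbas (by positivity)
  exact h1.trans h2

end H306G
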