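import Pool.Agent.H306G.Defs

set_option autoImplicit false
open Finset

namespace H306G

theorem finite_quad (a b c : ℝ) (h : a ≠ 0 ∨ b ≠ 0) :
    {s : ℝ | a * s ^ 2 + b * s + c = 0}.Finite := by
  have hne : Polynomial.C a * Polynomial.X ^ 2 + Polynomial.C b * Polynomial.X +
      Polynomial.C c ≠ 0 := by
    intro h0
    have h2 := congrArg (fun P => Polynomial.coeff P 2) h0
    have h1 := congrArg (fun P => Polynomial.coeff P 1) h0
    simp [Polynomial.coeff_X, Polynomial.coeff_C] at h1 h2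
    rcases h with h | h
    · exact h h2
    · exact h h1
  have hs : {s : ℝ | a * s ^ 2 + b * s + c = 0} ⊆ {s : ℝ | Polynomial.IsRoot
      (Polynomial.C a * Polynomial.X ^ 2 + Polynomial.C b * Polynomial.X + Polynomial.C c) s} := by
    intro s hs
    have hs' : a * s ^ 2 + b * s + c = 0 := hs
    show Polynomial.IsRoot _ s
    rw [Polynomial.IsRoot.def]
    simp only [Polynomial.eval_add, Polynomial.eval_mul, Polynomial.eval_C, Polynomial.eval_pow,
      Polynomial.eval_X]
    exact hs'
  exact (Polynomial.finite_setOfPred_isRoot hne).subset hs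

theorem finite_eq_dist (x x' y : ℂ) (h : x ≠ x') :
    {s : ℝ | dist x (y + ⟨s, s ^ 2⟩) = dist x' (y + ⟨s, s ^ 2⟩)}.Finite := by
  refine (finite_quad (-2 * (x.im - x'.im)) (-2 * (x.re - x'.re))
    (((x.re - y.re) ^ 2 + (x.im - y.im) ^ 2) -
      ((x'.re - y.re) ^ 2 + (x'.im - y.im) ^ 2)) ?_).subset ?_
  · by_contra hc
    push Not at hc
    apply h
    apply Complex.ext
    · linarith [hc.2]
    · linarith [hc.1]
  · intro s hs
    have hs' : dist x (y + ⟨s, s ^ 2⟩) = dist x' (y + ⟨s, s ^ 2⟩) := hs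
    have h3 : dist x (y + ⟨s, s ^ 2⟩) ^ 2 = dist x' (y + ⟨s, s ^ 2⟩) ^ 2 := by rw [hs']
    rw [Complex.dist_eq, Complex.dist_eq, Complex.sq_norm, Complex.sq_norm,
      Complex.normSq_apply, Complex.normSq_apply] at h3
    simp only [Complex.sub_re, Complex.sub_im, Complex.add_re, Complex.add_im] at h3
    show _ * s ^ 2 + _ * s + _ = (0 : ℝ)
    nlinarith [h3]

theorem exists_far (X Y : Finset ℂ) : ∃ τ : ℂ,
    (∀ x ∈ X, ∀ y ∈ Y, (∀ a ∈ X, ∀ b ∈ X, dist a b < dist x (y + τ)) ∧
      (∀ a ∈ Y, ∀ b ∈ Y, dist a b < dist x (y + τ)) ∧ 0 < dist x (y + τ)) ∧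
    (∀ y ∈ Y, ∀ x ∈ X, ∀ x' ∈ X, dist x (y + τ) = dist x' (y + τ) → x = x') := by
  classical
  set R : ℝ := ∑ z ∈ X ∪ Y, ‖z‖ with hR
  have hRz : ∀ z ∈ X ∪ Y, ‖z‖ ≤ R := fun z hz =>
    Finset.single_le_sum (f := fun z : ℂ => ‖z‖) (fun z _ => norm_nonneg z) hz
  have hR0 : 0 ≤ R := Finset.sum_nonneg (fun z _ => norm_nonneg z)
  set B : Set ℝ := ⋃ p ∈ ((X ×ˢ X) ×ˢ Y).filter (fun p => p.1.1 ≠ p.1.2),
    {s : ℝ | dist p.1.1 (p.2 + ⟨s, s ^ 2⟩) = dist p.1.2 (p.2 + ⟨s, s ^ 2⟩)} with hB
  have hBf : B.Finite := by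
    apply Set.Finite.biUnion (Finset.finite_toSet _)
    intro p hp
    exact finite_eq_dist _ _ _ (Finset.mem_filter.1 hp).2
  have hinf : (Set.Ioi (4 * R + 1)).Infinite := Set.Ioi_infinite _
  obtain ⟨s, hs, hsB⟩ := (hinf.sdiff hBf).nonempty
  refine ⟨⟨s, s ^ 2⟩, ?_, ?_⟩
  · intro x hx y hy
    have hs' : 4 * R + 1 < s := hs
    have hτ : s ≤ ‖(⟨s, s ^ 2⟩ : ℂ)‖ := by
      have := Complex.abs_re_le_norm (⟨s, s ^ 2⟩ : ℂ)
      exact le_trans (le_abs_self s) this
    have hfar : s - 2 * R ≤ dist x (y + ⟨s, s ^ 2⟩) := by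
      rw [Complex.dist_eq]
      have h1 : ‖(⟨s, s ^ 2⟩ : ℂ)‖ ≤ ‖x - (y + ⟨s, s ^ 2⟩)‖ + ‖x‖ + ‖y‖ := by
        have h2 : (⟨s, s ^ 2⟩ : ℂ) = -(x - (y + ⟨s, s ^ 2⟩)) + x - y := by ring
        calc ‖(⟨s, s ^ 2⟩ : ℂ)‖ = ‖-(x - (y + ⟨s, s ^ 2⟩)) + x - y‖ := by rw [← h2]
          _ ≤ ‖-(x - (y + ⟨s, s ^ 2⟩)) + x‖ + ‖y‖ := norm_sub_le _ _
          _ ≤ ‖-(x - (y + ⟨s, s ^ 2⟩))‖ + ‖x‖ + ‖y‖ := by
              have := norm_add_le (-(x - (y + ⟨s, s ^ 2⟩))) x
              linarith
          _ = ‖x - (y + ⟨s, s ^ 2⟩)‖ + ‖x‖ + ‖y‖ := by rw [norm_neg]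
      have h3 := hRz x (Finset.mem_union_left _ hx)
      have h4 := hRz y (Finset.mem_union_right _ hy)
      linarith
    have hin : ∀ a ∈ X ∪ Y, ∀ b ∈ X ∪ Y, dist a b ≤ 2 * R := by
      intro a ha b hb
      rw [Complex.dist_eq]
      have := norm_sub_le a b
      have h3 := hRz a ha
      have h4 := hRz b hb
      linarith
    refine ⟨fun a ha b hb => ?_, fun a ha b hb => ?_, ?_⟩
    · have := hin a (Finset.mem_union_left _ ha) b (Finset.mem_union_left _ hb)
      linarith
    · have := hin a (Finset.mem_union_right _ ha) b (Finset.mem_union_right _ hb)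
      linarith
    · linarith
  · intro y hy x hx x' hx' heq
    by_contra hne
    apply hsB
    rw [hB]
    simp only [Set.mem_iUnion]
    exact ⟨((x, x'), y), Finset.mem_filter.2
      ⟨Finset.mem_product.2 ⟨Finset.mem_product.2 ⟨hx, hx'⟩, hy⟩, hne⟩, heq⟩

theorem om_translate (Y : Finset ℂ) (τ : ℂ) (d : ℝ) :
    om (Y.map (addRightEmbedding τ)) d = om Y d := by
  classical
  unfold om
  symm
  apply Finset.card_bij (fun p _ => (p.1 + τ, p.2 + τ))
  · intro p hp
    rw [Finset.mem_filter, Finset.mem_product] at hp ⊢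
    refine ⟨⟨?_, ?_⟩, ?_⟩
    · exact Finset.mem_map.2 ⟨p.1, hp.1.1, rfl⟩
    · exact Finset.mem_map.2 ⟨p.2, hp.1.2, rfl⟩
    · rw [dist_add_right]; exact hp.2
  · intro p _ q _ hpq
    have h1 := (Prod.mk.inj hpq).1
    have h2 := (Prod.mk.inj hpq).2
    exact Prod.ext (add_right_cancel h1) (add_right_cancel h2)
  · intro q hq
    rw [Finset.mem_filter, Finset.mem_product] at hq
    obtain ⟨⟨h1, h2⟩, h3⟩ := hq
    obtain ⟨a, ha, ha'⟩ := Finset.mem_map.1 h1
    obtain ⟨b, hb, hb'⟩ := Finset.mem_map.1 h2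
    have ha'' : a + τ = q.1 := ha'
    have hb'' : b + τ = q.2 := hb'
    refine ⟨(a, b), ?_, ?_⟩
    · rw [Finset.mem_filter, Finset.mem_product]
      refine ⟨⟨ha, hb⟩, ?_⟩
      rw [← ha'', ← hb'', dist_add_right] at h3
      exact h3
    · exact Prod.ext ha'' hb''

open Classical in
theorem om_union (X Z : Finset ℂ) (hd : Disjoint X Z) (d : ℝ) :
    om (X ∪ Z) d = om X d + om Z d + ((X ×ˢ Z).filter (fun p => dist p.1 p.2 = d)).card +
      ((Z ×ˢ X).filter (fun p => dist p.1 p.2 = d)).card := by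
  unfold om
  have h1 : ((X ∪ Z) ×ˢ (X ∪ Z)).filter (fun p => dist p.1 p.2 = d) =
      (((X ×ˢ X).filter (fun p => dist p.1 p.2 = d) ∪
        (Z ×ˢ Z).filter (fun p => dist p.1 p.2 = d)) ∪
        (X ×ˢ Z).filter (fun p => dist p.1 p.2 = d)) ∪
        (Z ×ˢ X).filter (fun p => dist p.1 p.2 = d) := by
    ext p
    simp only [Finset.mem_filter, Finset.mem_product, Finset.mem_union]
    tauto
  have hdx : ∀ z, z ∈ X → z ∈ Z → False := fun z h1 h2 => (Finset.disjoint_left.1 hd) h1 h2
  rw [h1, Finset.card_union_of_disjoint, Finset.card_union_of_disjoint,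
    Finset.card_union_of_disjoint]
  · rw [Finset.disjoint_left]
    intro p hp hq
    simp only [Finset.mem_filter, Finset.mem_product] at hp hq
    exact hdx _ hp.1.1 hq.1.1
  · rw [Finset.disjoint_left]
    intro p hp hq
    simp only [Finset.mem_filter, Finset.mem_product, Finset.mem_union] at hp hq
    rcases hp with hp | hp
    · exact hdx _ hp.1.2 hq.1.2
    · exact hdx _ hq.1.1 hp.1.1
  · rw [Finset.disjoint_left]
    intro p hp hq
    simp only [Finset.mem_filter, Finset.mem_product, Finset.mem_union] at hp hq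
    rcases hp with (hp | hp) | hp
    · exact hdx _ hp.1.1 hq.1.1
    · exact hdx _ hq.1.2 hp.1.2
    · exact hdx _ hp.1.1 hq.1.1

theorem om_zero_of {X : Finset ℂ} {d : ℝ} (h : ∀ a ∈ X, ∀ b ∈ X, dist a b < d) : om X d = 0 := by
  classical
  unfold om
  rw [Finset.card_eq_zero, Finset.filter_eq_empty_iff]
  intro p hp
  rw [Finset.mem_product] at hp
  exact ne_of_lt (h _ hp.1 _ hp.2)

theorem E_thm : E_stmt := by
  classical
  intro g l
  induction l with
  | nil =>
    intro _
    refine ⟨∅, by simp, ?_⟩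
    intro d _
    simp [om]
  | cons Y l ih =>
    intro hl
    obtain ⟨X, hX, hXd⟩ := ih (fun Z hZ => hl Z (List.mem_cons_of_mem _ hZ))
    have hY : Y.card ≤ g := hl Y List.mem_cons_self
    obtain ⟨τ, hfar, hinj⟩ := exists_far X Y
    set Z : Finset ℂ := Y.map (addRightEmbedding τ) with hZ
    have hZcard : Z.card = Y.card := Finset.card_map _
    have hmemZ : ∀ z ∈ Z, ∃ y ∈ Y, z = y + τ := by
      intro z hz
      obtain ⟨y, hy, hyz⟩ := Finset.mem_map.1 hz
      exact ⟨y, hy, hyz.symm⟩
    have hdis : Disjoint X Z := by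
      rw [Finset.disjoint_left]
      intro z hz hz'
      obtain ⟨y, hy, rfl⟩ := hmemZ z hz'
      have := (hfar _ hz y hy).2.2
      rw [dist_self] at this
      exact lt_irrefl _ this
    refine ⟨X ∪ Z, ?_, ?_⟩
    · rw [Finset.card_union_of_disjoint hdis, hX, hZcard, List.map_cons, List.sum_cons]
      ring
    · intro d hd
      have hu := om_union X Z hdis d
      have hZd : om Z d = om Y d := om_translate Y τ d
      have hIH := hXd d hd
      rw [List.map_cons, List.sum_cons]
      constructor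
      · rw [hu, hZd]; omega
      · have hc1 : ((X ×ˢ Z).filter (fun p => dist p.1 p.2 = d)).card ≤ Y.card := by
          rw [← hZcard]
          apply Finset.card_le_card_of_injOn (fun p => p.2)
          · intro p hp
            have hp' := Finset.mem_coe.1 hp
            rw [Finset.mem_filter, Finset.mem_product] at hp'
            exact hp'.1.2
          · intro p hp q hq hpq
            have hp' := Finset.mem_coe.1 hp
            have hq' := Finset.mem_coe.1 hq
            rw [Finset.mem_filter, Finset.mem_product] at hp' hq'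
            simp only at hpq
            obtain ⟨y, hy, hyz⟩ := hmemZ _ hp'.1.2
            apply Prod.ext _ hpq
            apply hinj y hy _ hp'.1.1 _ hq'.1.1
            rw [← hyz, hp'.2, hpq, hq'.2]
        have hc2 : ((Z ×ˢ X).filter (fun p => dist p.1 p.2 = d)).card ≤ Y.card := by
          rw [← hZcard]
          apply Finset.card_le_card_of_injOn (fun p => p.1)
          · intro p hp
            have hp' := Finset.mem_coe.1 hp
            rw [Finset.mem_filter, Finset.mem_product] at hp'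
            exact hp'.1.1
          · intro p hp q hq hpq
            have hp' := Finset.mem_coe.1 hp
            have hq' := Finset.mem_coe.1 hq
            rw [Finset.mem_filter, Finset.mem_product] at hp' hq'
            simp only at hpq
            obtain ⟨y, hy, hyz⟩ := hmemZ _ hp'.1.1
            apply Prod.ext hpq
            apply hinj y hy _ hp'.1.2 _ hq'.1.2
            rw [← hyz, dist_comm, hp'.2, hpq, dist_comm, hq'.2]
        by_cases hcr : ∃ x ∈ X, ∃ y ∈ Y, dist x (y + τ) = d
        · obtain ⟨x, hx, y, hy, hxy⟩ := hcr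
          have h1 : om X d = 0 := by
            apply om_zero_of
            rw [← hxy]
            exact (hfar x hx y hy).1
          have h2 : om Y d = 0 := by
            apply om_zero_of
            rw [← hxy]
            exact (hfar x hx y hy).2.1
          rw [hu, hZd, h1, h2]
          omega
        · push Not at hcr
          have h1 : ((X ×ˢ Z).filter (fun p => dist p.1 p.2 = d)).card = 0 := by
            rw [Finset.card_eq_zero, Finset.filter_eq_empty_iff]
            intro p hp
            rw [Finset.mem_product] at hp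
            obtain ⟨y, hy, hyz⟩ := hmemZ _ hp.2
            rw [hyz]
            exact hcr _ hp.1 y hy
          have h2 : ((Z ×ˢ X).filter (fun p => dist p.1 p.2 = d)).card = 0 := by
            rw [Finset.card_eq_zero, Finset.filter_eq_empty_iff]
            intro p hp
            rw [Finset.mem_product] at hp
            obtain ⟨y, hy, hyz⟩ := hmemZ _ hp.1
            rw [hyz, dist_comm]
            exact hcr _ hp.2 y hy
          rw [hu, hZd, h1, h2]
          omega

end H306G
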