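import Mathlib

set_option autoImplicit false
open Finset

/-! MP_cf6fa9_co (gap between the two largest distance multiplicities), helper306 blueprint. -/
namespace H306G

open Classical in
/-- number of ordered pairs of points of `X` at distance `d` -/
noncomputable def om (X : Finset ℂ) (d : ℝ) : ℕ :=
  ((X ×ˢ X).filter (fun p => dist p.1 p.2 = d)).card

open Classical in
/-- the `L × L` grid -/
noncomputable def grid (L : ℕ) : Finset ℂ :=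
  ((range L) ×ˢ (range L)).image (fun p : ℕ × ℕ => (p.1 : ℂ) + (p.2 : ℂ) * Complex.I)

/-- (A) many primes `1 mod 4` below `4K^2+1` -/
def A_stmt : Prop := ∀ K : ℕ, 1 ≤ K →
  4 ^ K ≤ (4 * K ^ 2 + 1) ^ (2 * ((range (4 * K ^ 2 + 2)).filter
    (fun p => p.Prime ∧ p % 4 = 1)).card)

/-- (C) a distance of high multiplicity in the grid -/
def C_stmt : Prop := ∀ (D : Finset ℕ) (L : ℕ), (∀ p ∈ D, p.Prime ∧ p % 4 = 1) →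
  4 * (∏ p ∈ D, p) ≤ L ^ 2 →
  2 ^ D.card * L ^ 2 ≤ 4 * om (grid L) (Real.sqrt ((∏ p ∈ D, p : ℕ) : ℝ))

/-- (D) choice of the scales -/
def D_stmt : Prop := ∀ (S : ℕ) (f : ℝ → ℕ), 1 ≤ S →
  (∀ s : ℝ, 0 < s → f s ≠ 0 → ∃ k : ℕ, 1 ≤ k ∧ k ≤ S ∧ s = k) →
  ∀ s0 : ℝ, 0 < s0 → 0 < f s0 →
  ∃ T : Finset ℕ, T.Nonempty ∧ (∀ b ∈ T, 1 ≤ b ∧ b ≤ S) ∧
    ∀ x : ℝ, 0 < x → x ≠ 1 →
      (f s0 : ℝ) * T.card ≤ 8 * ((Nat.log 2 S : ℝ) + 1) ^ 3 *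
        (∑ b ∈ T, (f (b : ℝ) : ℝ) - ∑ b ∈ T, (f ((b : ℝ) * x) : ℝ))

/-- (D1) valuation lemma: a nonempty set of integers `≤ S` is not nearly invariant under a dilation -/
def D1_stmt : Prop := ∀ (S : ℕ) (T : Finset ℕ), 1 ≤ S → (∀ b ∈ T, 1 ≤ b ∧ b ≤ S) →
  ∀ x : ℝ, 0 < x → x ≠ 1 →
  ∀ A : Finset ℕ, A ⊆ T → (∀ b ∈ A, ∃ c ∈ T, (c : ℝ) = b * x) →
    T.card ≤ (Nat.log 2 S + 1) * (T.card - A.card)

/-- (E) placing sets far apart -/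
def E_stmt : Prop := ∀ (g : ℕ) (l : List (Finset ℂ)), (∀ Y ∈ l, Y.card ≤ g) →
  ∃ X : Finset ℂ, X.card = (l.map Finset.card).sum ∧
    ∀ d : ℝ, 0 < d → (l.map (fun Y => om Y d)).sum ≤ om X d ∧
      om X d ≤ (l.map (fun Y => om Y d)).sum + 2 * g

/-- (F) asymptotics -/
def F_stmt : Prop := ∃ c : ℝ, 0 < c ∧ ∃ N : ℕ, ∀ n : ℕ, N ≤ n → ∃ j L : ℕ, 1 ≤ j ∧
  (4 * (j ^ 2) ^ 2 + 1) ^ (2 * j) < 4 ^ (j ^ 2) ∧
  L = 2 * (2 * j ^ 2 + 1) ^ j ∧ 4 * L ^ 4 ≤ n ∧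
  2 * (n : ℝ) ^ (1 + c / Real.log (Real.log n)) ≤
    (n : ℝ) * 2 ^ j / (64 * ((Nat.log 2 (2 * L ^ 2) : ℝ) + 1) ^ 3) - 2 * (L : ℝ) ^ 2

end H306G
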