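import Mathlib
import Pool.Agent.H306G.Defs

set_option autoImplicit false
open Finset Filter

namespace H306G
namespace SF

/-- the side of the grid -/
def LL (j : ℕ) : ℕ := 2 * (2 * j ^ 2 + 1) ^ j

lemma LL_ge_pow (j : ℕ) (hj : 1 ≤ j) : 3 ^ j ≤ LL j := by
  unfold LL
  have h1 : 3 ≤ 2 * j ^ 2 + 1 := by nlinarith
  have h2 : 3 ^ j ≤ (2 * j ^ 2 + 1) ^ j := Nat.pow_le_pow_left h1 j
  omega

lemma LL_two (j : ℕ) : 2 ≤ LL j := by
  unfold LL
  have : 1 ≤ (2 * j ^ 2 + 1) ^ j := Nat.one_le_pow _ _ (by positivity)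
  omega

lemma LL_gt (j : ℕ) (hj : 1 ≤ j) : j < LL j :=
  lt_of_lt_of_le (Nat.lt_pow_self (by norm_num)) (LL_ge_pow j hj)

lemma LL_pow (j : ℕ) : LL j ≤ LL j ^ 8 := Nat.le_self_pow (by norm_num) _

/-- choice of `j` -/
lemma exists_j (J n : ℕ) (hJ : 1 ≤ J) (hn : LL J ^ 8 ≤ n) :
    ∃ j, J ≤ j ∧ LL j ^ 8 ≤ n ∧ n < LL (j + 1) ^ 8 := by
  classical
  have hJn : J ≤ n := (LL_gt J hJ).le.trans ((LL_pow J).trans hn)
  let j := Nat.findGreatest (fun j => LL j ^ 8 ≤ n) n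
  have h1 : J ≤ j := Nat.le_findGreatest hJn hn
  have h2 : LL j ^ 8 ≤ n := Nat.findGreatest_spec (P := fun j => LL j ^ 8 ≤ n) hJn hn
  refine ⟨j, h1, h2, ?_⟩
  by_contra hcon
  have hcon' : LL (j + 1) ^ 8 ≤ n := not_lt.1 hcon
  have h3 : j + 1 ≤ n := (LL_gt (j + 1) (by omega)).le.trans ((LL_pow _).trans hcon')
  have h4 : j + 1 ≤ j := Nat.le_findGreatest h3 hcon'
  omega

lemma pow_lt (j : ℕ) (h : 4 * j ^ 4 + 1 < 2 ^ j) (hj : 1 ≤ j) :
    (4 * (j ^ 2) ^ 2 + 1) ^ (2 * j) < 4 ^ (j ^ 2) := by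
  have e1 : (4 : ℕ) ^ (j ^ 2) = (2 ^ j) ^ (2 * j) := by
    rw [← pow_mul, show (4 : ℕ) = 2 ^ 2 by norm_num, ← pow_mul]
    congr 1
    ring
  have e2 : 4 * (j ^ 2) ^ 2 + 1 = 4 * j ^ 4 + 1 := by ring
  rw [e1, e2]
  exact Nat.pow_lt_pow_left h (by omega)

lemma four_pow (j : ℕ) : 2 * j ^ 2 + 1 ≤ 4 ^ j := by
  induction j with
  | zero => simp
  | succ j ih =>
    have h : 4 * j ≤ 6 * j ^ 2 + 1 := by
      rcases Nat.eq_zero_or_pos j with rfl | hj
      · norm_num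
      · nlinarith
    have h2 : 4 ^ (j + 1) = 4 * 4 ^ j := by ring
    have h3 : 2 * (j + 1) ^ 2 + 1 = 2 * j ^ 2 + 4 * j + 3 := by ring
    omega

lemma log_le (j : ℕ) : Nat.log 2 (2 * LL j ^ 2) ≤ 4 * j ^ 2 + 3 := by
  have h1 : 2 * LL j ^ 2 ≤ 2 ^ (4 * j ^ 2 + 3) := by
    have h2 : (2 * j ^ 2 + 1) ^ j ≤ (4 ^ j) ^ j := Nat.pow_le_pow_left (four_pow j) j
    have h3 : 2 * LL j ^ 2 = 8 * ((2 * j ^ 2 + 1) ^ j) ^ 2 := by
      unfold LL
      ring
    have h4 : (2 : ℕ) ^ (4 * j ^ 2 + 3) = 8 * ((4 ^ j) ^ j) ^ 2 := by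
      rw [pow_add, show (4 : ℕ) = 2 ^ 2 by norm_num, ← pow_mul, ← pow_mul, ← pow_mul]
      rw [mul_comm]
      congr 2
      ring
    rw [h3, h4]
    exact Nat.mul_le_mul_left _ (Nat.pow_le_pow_left h2 2)
  calc Nat.log 2 (2 * LL j ^ 2) ≤ Nat.log 2 (2 ^ (4 * j ^ 2 + 3)) := Nat.log_mono_right h1
    _ = 4 * j ^ 2 + 3 := Nat.log_pow (by norm_num) _

/-- `log n ≤ 72 j log j` -/
lemma log_n_le (j n : ℕ) (hj : 3 ≤ j) (hn0 : 0 < n) (hn : n < LL (j + 1) ^ 8) :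
    Real.log n ≤ 72 * (j * Real.log j) := by
  have hj' : (3 : ℝ) ≤ j := by exact_mod_cast hj
  have hlogj : 1 ≤ Real.log j := by
    rw [Real.le_log_iff_exp_le (by linarith)]
    have := Real.exp_one_lt_d9
    linarith
  have h1 : (n : ℝ) ≤ ((LL (j + 1) : ℕ) : ℝ) ^ 8 := by exact_mod_cast hn.le
  have hnpos : (0 : ℝ) < n := by exact_mod_cast hn0
  have h2 : Real.log n ≤ 8 * Real.log (LL (j + 1) : ℕ) := by
    calc Real.log n ≤ Real.log (((LL (j + 1) : ℕ) : ℝ) ^ 8) := Real.log_le_log hnpos h1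
      _ = 8 * Real.log (LL (j + 1) : ℕ) := by
        rw [Real.log_pow]
        norm_num
  have h3 : Real.log (LL (j + 1) : ℕ) = Real.log 2 + ((j : ℝ) + 1) * Real.log (2 * ((j : ℝ) + 1) ^ 2 + 1) := by
    unfold LL
    push_cast
    rw [Real.log_mul (by norm_num) (by positivity), Real.log_pow]
    push_cast
    ring
  have h4 : Real.log (2 * ((j : ℝ) + 1) ^ 2 + 1) ≤ 4 * Real.log j := by
    have : 2 * ((j : ℝ) + 1) ^ 2 + 1 ≤ (j : ℝ) ^ 4 := by
      nlinarith [mul_nonneg (by linarith : (0 : ℝ) ≤ j - 3) (by positivity : (0 : ℝ) ≤ (j : ℝ) ^ 3),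
        mul_nonneg (by linarith : (0 : ℝ) ≤ j - 3) (by positivity : (0 : ℝ) ≤ (j : ℝ) ^ 2),
        mul_nonneg (by linarith : (0 : ℝ) ≤ j - 3) (by positivity : (0 : ℝ) ≤ (j : ℝ))]
    calc Real.log (2 * ((j : ℝ) + 1) ^ 2 + 1) ≤ Real.log ((j : ℝ) ^ 4) :=
          Real.log_le_log (by positivity) this
      _ = 4 * Real.log j := by
        rw [Real.log_pow]
        norm_num
  have h5 : Real.log 2 ≤ 1 := by
    have := Real.log_two_lt_d9
    linarith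
  have h6 : Real.log 2 ≤ j * Real.log j := by nlinarith
  have h7 : ((j : ℝ) + 1) * Real.log (2 * ((j : ℝ) + 1) ^ 2 + 1) ≤ (2 * j) * (4 * Real.log j) := by
    apply mul_le_mul (by linarith) h4 (Real.log_nonneg (by nlinarith)) (by positivity)
  rw [h3] at h2
  nlinarith

/-- `log n ≥ j` -/
lemma le_log_n (j n : ℕ) (hj : 1 ≤ j) (hn : LL j ^ 8 ≤ n) : (j : ℝ) ≤ Real.log n := by
  have h1 : 3 ^ j ≤ n := (LL_ge_pow j hj).trans ((LL_pow j).trans hn)
  have h2 : ((3 : ℝ)) ^ j ≤ n := by exact_mod_cast h1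
  have h3 : (0 : ℝ) < (3 : ℝ) ^ j := by positivity
  have h4 : (1 : ℝ) ≤ Real.log 3 := by
    rw [Real.le_log_iff_exp_le (by norm_num)]
    have := Real.exp_one_lt_d9
    linarith
  calc (j : ℝ) = j * 1 := by ring
    _ ≤ j * Real.log 3 := mul_le_mul_of_nonneg_left h4 (by positivity)
    _ = Real.log ((3 : ℝ) ^ j) := (Real.log_pow _ _).symm
    _ ≤ Real.log n := Real.log_le_log h3 h2

lemma eventually_i : ∀ᶠ j : ℕ in atTop, 4 * j ^ 4 + 1 < 2 ^ j := by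
  have h := tendsto_pow_const_div_const_pow_of_one_lt 4 (show (1 : ℝ) < 2 by norm_num)
  have h1 : ∀ᶠ j : ℕ in atTop, ((j : ℝ) ^ 4 / 2 ^ j) < 1 / 5 :=
    h.eventually (gt_mem_nhds (by norm_num))
  filter_upwards [h1, eventually_ge_atTop 2] with j hj hj2
  have h2 : (0 : ℝ) < 2 ^ j := by positivity
  rw [div_lt_iff₀ h2] at hj
  have h3 : (1 : ℝ) ≤ (j : ℝ) ^ 4 := one_le_pow₀ (by exact_mod_cast (by omega : 1 ≤ j))
  have h4 : (4 * (j : ℝ) ^ 4 + 1) < 2 ^ j := by linarith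
  exact_mod_cast h4

lemma eventually_iii : ∀ᶠ j : ℕ in atTop, 131072 * (j : ℝ) ^ 6 ≤ (Real.sqrt 2) ^ j := by
  have hs : (1 : ℝ) < Real.sqrt 2 := by
    rw [Real.lt_sqrt (by norm_num)]
    norm_num
  have h := tendsto_pow_const_div_const_pow_of_one_lt 6 hs
  have h1 : ∀ᶠ j : ℕ in atTop, ((j : ℝ) ^ 6 / (Real.sqrt 2) ^ j) < 1 / 131072 :=
    h.eventually (gt_mem_nhds (by norm_num))
  filter_upwards [h1] with j hj
  have h2 : (0 : ℝ) < (Real.sqrt 2) ^ j := by positivity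
  rw [div_lt_iff₀ h2] at hj
  linarith

end SF

open SF in
theorem F_thm : F_stmt := by
  refine ⟨1 / 300, by norm_num, ?_⟩
  obtain ⟨J, hJ⟩ := eventually_atTop.1 (eventually_i.and eventually_iii)
  let J' := max J 3
  refine ⟨LL J' ^ 8, fun n hn => ?_⟩
  obtain ⟨j, hJj, hjn, hnj⟩ := exists_j J' n (le_trans (by norm_num) (le_max_right J 3)) hn
  have hj3 : 3 ≤ j := (le_max_right J 3).trans hJj
  obtain ⟨hi, hiii⟩ := hJ j ((le_max_left J 3).trans hJj)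
  have hL2 := LL_two j
  refine ⟨j, LL j, by omega, pow_lt j hi (by omega), rfl, ?_, ?_⟩
  · refine le_trans ?_ hjn
    have : 4 ≤ LL j ^ 4 := le_trans (by norm_num : 4 ≤ 2 ^ 4) (Nat.pow_le_pow_left hL2 4)
    calc 4 * LL j ^ 4 ≤ LL j ^ 4 * LL j ^ 4 := Nat.mul_le_mul_right _ this
      _ = LL j ^ 8 := by ring
  · have hn0 : 0 < n := lt_of_lt_of_le (by positivity) hjn
    have hnpos : (0 : ℝ) < n := by exact_mod_cast hn0
    set s : ℝ := (Real.sqrt 2) ^ j with hs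
    have hs1 : 1 ≤ s := by
      apply one_le_pow₀
      rw [Real.one_le_sqrt]
      norm_num
    have hss : s * s = 2 ^ j := by
      rw [hs, ← mul_pow, Real.mul_self_sqrt (by norm_num)]
    -- the power of `n`
    have hj' : (3 : ℝ) ≤ j := by exact_mod_cast hj3
    have hlogj : 0 < Real.log j := Real.log_pos (by linarith)
    have hlogn : (j : ℝ) ≤ Real.log n := le_log_n j n (by omega) hjn
    have hloglog : Real.log j ≤ Real.log (Real.log n) := Real.log_le_log (by linarith) hlogn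
    have hup := log_n_le j n hj3 hn0 hnj
    have hexp : Real.log n * (1 / 300 / Real.log (Real.log n)) ≤ (j : ℝ) * (Real.log 2 / 2) := by
      have h1 : 0 < Real.log (Real.log n) := lt_of_lt_of_le hlogj hloglog
      have h2 := Real.log_two_gt_d9
      rw [← mul_div_assoc, div_le_iff₀ h1]
      have h3 : (j : ℝ) * (Real.log 2 / 2) * Real.log j ≤ (j : ℝ) * (Real.log 2 / 2) * Real.log (Real.log n) :=
        mul_le_mul_of_nonneg_left hloglog (by positivity)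
      have h4 : 0 < (j : ℝ) * Real.log j := by positivity
      nlinarith
    have hpow : (n : ℝ) ^ (1 / 300 / Real.log (Real.log n)) ≤ s := by
      rw [Real.rpow_def_of_pos hnpos]
      have h1 : s = Real.exp ((j : ℝ) * (Real.log 2 / 2)) := by
        rw [hs, ← Real.log_sqrt (by norm_num), ← Real.log_pow, Real.exp_log (by positivity)]
      rw [h1]
      exact Real.exp_le_exp.2 hexp
    have hpow2 : (n : ℝ) ^ (1 + 1 / 300 / Real.log (Real.log n)) ≤ n * s := by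
      rw [Real.rpow_add hnpos, Real.rpow_one]
      exact mul_le_mul_of_nonneg_left hpow hnpos.le
    -- the logarithm
    set B : ℝ := 64 * ((Nat.log 2 (2 * LL j ^ 2) : ℝ) + 1) ^ 3 with hB
    have hBpos : 0 < B := by positivity
    have hBle : 4 * B ≤ s := by
      have h1 : ((Nat.log 2 (2 * LL j ^ 2) : ℕ) : ℝ) ≤ 4 * (j : ℝ) ^ 2 + 3 := by
        exact_mod_cast log_le j
      have h2 : (Nat.log 2 (2 * LL j ^ 2) : ℝ) + 1 ≤ 8 * (j : ℝ) ^ 2 := by nlinarith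
      have h3 : ((Nat.log 2 (2 * LL j ^ 2) : ℝ) + 1) ^ 3 ≤ (8 * (j : ℝ) ^ 2) ^ 3 :=
        pow_le_pow_left₀ (by positivity) h2 3
      have h4 : (8 * (j : ℝ) ^ 2) ^ 3 = 512 * (j : ℝ) ^ 6 := by ring
      rw [hB]
      rw [h4] at h3
      linarith
    have hLn : 2 * ((LL j : ℕ) : ℝ) ^ 2 ≤ n := by
      have : 2 * LL j ^ 2 ≤ n := by
        refine le_trans ?_ hjn
        have h6 : 2 ≤ LL j ^ 6 := le_trans (by norm_num : 2 ≤ 2 ^ 6) (Nat.pow_le_pow_left hL2 6)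
        calc 2 * LL j ^ 2 ≤ LL j ^ 6 * LL j ^ 2 := Nat.mul_le_mul_right _ h6
          _ = LL j ^ 8 := by ring
      exact_mod_cast this
    have hmain : 4 * (n * s) ≤ (n : ℝ) * 2 ^ j / B := by
      rw [le_div_iff₀ hBpos, ← hss]
      have : 4 * (n * s) * B = (n * s) * (4 * B) := by ring
      rw [this]
      calc (n * s) * (4 * B) ≤ (n * s) * s := mul_le_mul_of_nonneg_left hBle (by positivity)
        _ = (n : ℝ) * (s * s) := by ring
    have hns : (n : ℝ) ≤ n * s := by nlinarith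
    linarith

end H306G
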