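import Pool.Agent.H306G.A
import Pool.Agent.H306G.C
import Pool.Agent.H306G.DD
import Pool.Agent.H306G.E
import Pool.Agent.H306G.F

set_option autoImplicit false
open Finset

namespace H306G

/-- the scaled set -/
noncomputable def scale (a : ℝ) (Y : Finset ℂ) : Finset ℂ := by
  classical exact Y.image fun z => (a : ℂ) * z

theorem scale_inj {a : ℝ} (ha : 0 < a) : Function.Injective fun z : ℂ => (a : ℂ) * z := by
  intro z w h
  have ha' : (a : ℂ) ≠ 0 := by exact_mod_cast ha.ne'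
  exact mul_left_cancel₀ ha' h

theorem card_scale {a : ℝ} (ha : 0 < a) (Y : Finset ℂ) : (scale a Y).card = Y.card := by
  classical
  unfold scale
  exact card_image_of_injective _ (scale_inj ha)

theorem om_scale {a : ℝ} (ha : 0 < a) (Y : Finset ℂ) (d : ℝ) : om (scale a Y) d = om Y (d / a) := by
  classical
  unfold om
  symm
  apply card_bij (fun p _ => ((a : ℂ) * p.1, (a : ℂ) * p.2))
  · rintro ⟨z, w⟩ h
    simp only [mem_filter, mem_product] at h ⊢
    refine ⟨⟨?_, ?_⟩, ?_⟩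
    · unfold scale; exact mem_image_of_mem _ h.1.1
    · unfold scale; exact mem_image_of_mem _ h.1.2
    · rw [dist_eq_norm, ← mul_sub, norm_mul, ← dist_eq_norm, h.2, Complex.norm_real, Real.norm_eq_abs,
        abs_of_pos ha]
      field_simp
  · rintro ⟨z, w⟩ _ ⟨z', w'⟩ _ h
    simp only [Prod.mk.injEq] at h
    exact Prod.ext (scale_inj ha h.1) (scale_inj ha h.2)
  · rintro ⟨z, w⟩ h
    simp only [mem_filter, mem_product] at h
    obtain ⟨⟨hz, hw⟩, hd⟩ := h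
    unfold scale at hz hw
    obtain ⟨z', hz', rfl⟩ := mem_image.1 hz
    obtain ⟨w', hw', rfl⟩ := mem_image.1 hw
    refine ⟨(z', w'), ?_, rfl⟩
    simp only [mem_filter, mem_product]
    refine ⟨⟨hz', hw'⟩, ?_⟩
    rw [dist_eq_norm, ← mul_sub, norm_mul, ← dist_eq_norm, Complex.norm_real, Real.norm_eq_abs,
        abs_of_pos ha] at hd
    rw [← hd]
    field_simp

theorem card_grid (L : ℕ) : (grid L).card = L ^ 2 := by
  classical
  unfold grid
  rw [card_image_of_injective, card_product, card_range, sq]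
  rintro ⟨a, b⟩ ⟨c, d⟩ h
  have := C_natC a b c d h
  simpa using this

/-- the distances of the grid -/
theorem grid_dist {L : ℕ} {s : ℝ} (hs : 0 < s) (h : om (grid L) (Real.sqrt s) ≠ 0) :
    ∃ k : ℕ, 1 ≤ k ∧ k ≤ 2 * L ^ 2 ∧ s = k := by
  classical
  unfold om at h
  obtain ⟨⟨z, w⟩, hp⟩ := card_pos.1 (Nat.pos_of_ne_zero h)
  simp only [mem_filter, mem_product] at hp
  obtain ⟨⟨hz, hw⟩, hd⟩ := hp
  unfold grid at hz hw
  obtain ⟨⟨a, b⟩, hab, rfl⟩ := mem_image.1 hz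
  obtain ⟨⟨c, e⟩, hce, rfl⟩ := mem_image.1 hw
  simp only [mem_product, mem_range] at hab hce
  have h1 : s = ((a : ℝ) - c) ^ 2 + ((b : ℝ) - e) ^ 2 := by
    rw [← Real.sq_sqrt hs.le, ← hd, dist_eq_norm, ← Complex.normSq_eq_norm_sq, Complex.normSq_apply]
    simp
    ring
  have h2 : s = ((((a : ℤ) - c).natAbs ^ 2 + ((b : ℤ) - e).natAbs ^ 2 : ℕ) : ℝ) := by
    rw [h1]
    push_cast
    rw [Nat.cast_natAbs, Nat.cast_natAbs]
    push_cast
    rw [sq_abs, sq_abs]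
  refine ⟨_, ?_, ?_, h2⟩
  · rw [h2] at hs
    have : 0 < ((a : ℤ) - c).natAbs ^ 2 + ((b : ℤ) - e).natAbs ^ 2 := by exact_mod_cast hs
    exact this
  · have e1 : ((a : ℤ) - c).natAbs ≤ L := by omega
    have e2 : ((b : ℤ) - e).natAbs ≤ L := by omega
    have e3 := Nat.pow_le_pow_left e1 2
    have e4 := Nat.pow_le_pow_left e2 2
    omega


theorem om_singleton {d : ℝ} (hd : 0 < d) : om {0} d = 0 := by
  classical
  unfold om
  rw [card_eq_zero, filter_eq_empty_iff]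
  rintro ⟨z, w⟩ h
  simp only [mem_product, mem_singleton] at h
  obtain ⟨rfl, rfl⟩ := h
  simpa using hd.ne

/-- the list of the sets -/
noncomputable def sets (L m r : ℕ) (T : Finset ℕ) : List (Finset ℂ) :=
  (List.replicate m (T.toList.map fun b : ℕ => scale (1 / Real.sqrt (b : ℝ)) (grid L))).flatten ++
    List.replicate r {0}

theorem sum_sets (L m r : ℕ) (T : Finset ℕ) (g : Finset ℂ → ℕ) :
    ((sets L m r T).map g).sum =
      m * ∑ b ∈ T, g (scale (1 / Real.sqrt (b : ℝ)) (grid L)) + r * g {0} := by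
  have h1 : ∀ m : ℕ, (((List.replicate m (T.toList.map fun b : ℕ => scale (1 / Real.sqrt (b : ℝ)) (grid L))).flatten).map g).sum
      = m * ∑ b ∈ T, g (scale (1 / Real.sqrt (b : ℝ)) (grid L)) := by
    intro m
    induction m with
    | zero => simp
    | succ m ih =>
      rw [List.replicate_succ, List.flatten_cons, List.map_append, List.sum_append, ih, List.map_map]
      have : (List.map (g ∘ fun b : ℕ => scale (1 / Real.sqrt (b : ℝ)) (grid L)) T.toList).sum =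
          ∑ b ∈ T, g (scale (1 / Real.sqrt (b : ℝ)) (grid L)) := Finset.sum_map_toList T _
      rw [this]
      ring
  unfold sets
  rw [List.map_append, List.sum_append, h1, List.map_replicate, List.sum_replicate, smul_eq_mul]

theorem mem_sets {L m r : ℕ} {T : Finset ℕ} {Y : Finset ℂ} (h : Y ∈ sets L m r T) :
    (∃ b ∈ T, Y = scale (1 / Real.sqrt (b : ℝ)) (grid L)) ∨ Y = {0} := by
  unfold sets at h
  rcases List.mem_append.1 h with h | h
  · left
    obtain ⟨l, hl, hY⟩ := List.mem_flatten.1 h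
    rw [List.eq_of_mem_replicate hl] at hY
    obtain ⟨b, hb, rfl⟩ := List.mem_map.1 hY
    exact ⟨b, Finset.mem_toList.1 hb, rfl⟩
  · right
    exact List.eq_of_mem_replicate h

theorem core : ∃ c : ℝ, 0 < c ∧ ∃ N : ℕ, ∀ n : ℕ, N ≤ n → ∃ X : Finset ℂ, X.card = n ∧
    ∀ d : ℝ, 0 < d → d ≠ 1 →
      2 * (n : ℝ) ^ (1 + c / Real.log (Real.log n)) ≤ (om X 1 : ℝ) - om X d := by
  classical
  obtain ⟨c, hc, N, hN⟩ := F_thm
  refine ⟨c, hc, N, fun n hn => ?_⟩
  obtain ⟨j, L, hj, hpow, hL, hL4, hF⟩ := hN n hn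
  have hA := A_thm (j ^ 2) (Nat.one_le_pow _ _ hj)
  set P := (range (4 * (j ^ 2) ^ 2 + 2)).filter (fun p => p.Prime ∧ p % 4 = 1) with hP
  have hw : j ≤ P.card := by
    by_contra hcon
    push Not at hcon
    have h1 : (4 * (j ^ 2) ^ 2 + 1) ^ (2 * P.card) ≤ (4 * (j ^ 2) ^ 2 + 1) ^ (2 * j) :=
      Nat.pow_le_pow_right (by omega) (by omega)
    omega
  obtain ⟨D, hDP, hDc⟩ := exists_subset_card_eq hw
  have hDprime : ∀ p ∈ D, p.Prime ∧ p % 4 = 1 := fun p hp => (mem_filter.1 (hDP hp)).2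
  have hprod : ∏ p ∈ D, p ≤ (4 * (j ^ 2) ^ 2 + 1) ^ j := by
    have h1 := prod_le_pow_card D (fun p => p) (4 * (j ^ 2) ^ 2 + 1) (fun p hp => by
      have := mem_range.1 (mem_filter.1 (hDP hp)).1
      show p ≤ _
      omega)
    rwa [hDc] at h1
  have hL2 : 4 * ∏ p ∈ D, p ≤ L ^ 2 := by
    have h1 : L ^ 2 = 4 * ((2 * j ^ 2 + 1) ^ 2) ^ j := by
      rw [hL, mul_pow, ← pow_mul, ← pow_mul, mul_comm j 2]
      norm_num
    have h2 : (4 * (j ^ 2) ^ 2 + 1) ^ j ≤ ((2 * j ^ 2 + 1) ^ 2) ^ j := by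
      apply Nat.pow_le_pow_left
      nlinarith [sq_nonneg j]
    rw [h1]
    exact Nat.mul_le_mul_left 4 (hprod.trans h2)
  have hC := C_thm D L hDprime hL2
  rw [hDc] at hC
  have hPpos : 0 < ∏ p ∈ D, p := prod_pos fun p hp => (hDprime p hp).1.pos
  have hLpos : 0 < L := by
    rcases Nat.eq_zero_or_pos L with h | h
    · rw [h] at hL2; simp at hL2; omega
    · exact h
  set s0 : ℝ := ((∏ p ∈ D, p : ℕ) : ℝ) with hs0
  have hs0pos : 0 < s0 := by rw [hs0]; exact_mod_cast hPpos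
  set f : ℝ → ℕ := fun s => om (grid L) (Real.sqrt s) with hf
  have hfs0 : 0 < f s0 := by
    have h1 : 0 < 2 ^ j * L ^ 2 := by positivity
    show 0 < om (grid L) (Real.sqrt s0)
    omega
  obtain ⟨T, hTne, hT, hD⟩ := D_thm (2 * L ^ 2) f (by have := Nat.one_le_pow 2 L hLpos; omega)
    (fun s hs h => grid_dist hs h) s0 hs0pos hfs0
  have hTc : T.card ≤ 2 * L ^ 2 := by
    have h1 : T ⊆ Icc 1 (2 * L ^ 2) := fun b hb => mem_Icc.2 (hT b hb)
    simpa using card_le_card h1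
  have hTpos : 0 < T.card := card_pos.2 hTne
  set q : ℕ := T.card * L ^ 2 with hq
  have hqpos : 0 < q := by positivity
  set m : ℕ := n / q with hm
  set r : ℕ := n % q with hr
  have hmr : m * q + r = n := by rw [hm, hr, mul_comm]; exact Nat.div_add_mod n q
  have hsq : ∀ b ∈ T, 0 < 1 / Real.sqrt (b : ℝ) := fun b hb => by
    have : (0:ℝ) < b := by exact_mod_cast (hT b hb).1
    positivity
  obtain ⟨X, hXc, hX⟩ := E_thm (L ^ 2) (sets L m r T) (fun Y hY => by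
    rcases mem_sets hY with ⟨b, hb, rfl⟩ | rfl
    · rw [card_scale (hsq b hb), card_grid]
    · rw [card_singleton]; exact Nat.one_le_pow _ _ hLpos)
  refine ⟨X, ?_, ?_⟩
  · rw [hXc, sum_sets, card_singleton, mul_one, sum_congr rfl fun b hb => by
      rw [card_scale (hsq b hb), card_grid], sum_const, smul_eq_mul, ← hq, hmr]
  intro d hd hd1
  have homd : ∀ d : ℝ, 0 < d → ((sets L m r T).map fun Y => om Y d).sum = m * ∑ b ∈ T, f ((b : ℝ) * d ^ 2) := by
    intro d hd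
    rw [sum_sets, om_singleton hd, mul_zero, add_zero]
    congr 1
    apply sum_congr rfl
    intro b hb
    rw [om_scale (hsq b hb)]
    show _ = om (grid L) (Real.sqrt ((b : ℝ) * d ^ 2))
    congr 1
    rw [Real.sqrt_mul (Nat.cast_nonneg b), Real.sqrt_sq hd.le, div_div_eq_mul_div, div_one, mul_comm]
  have h1 := (hX 1 one_pos).1
  have h2 := (hX d hd).2
  rw [homd 1 one_pos] at h1
  rw [homd d hd] at h2
  simp only [one_pow, mul_one] at h1
  have h1r : (m : ℝ) * ∑ b ∈ T, (f (b : ℝ) : ℝ) ≤ om X 1 := by exact_mod_cast h1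
  have h2r : (om X d : ℝ) ≤ m * ∑ b ∈ T, (f ((b : ℝ) * d ^ 2) : ℝ) + 2 * (L : ℝ) ^ 2 := by exact_mod_cast h2
  have hd2 : d ^ 2 ≠ 1 := by
    intro h
    apply hd1
    nlinarith
  have h3 := hD (d ^ 2) (by positivity) hd2
  set l : ℝ := (Nat.log 2 (2 * L ^ 2) : ℝ) + 1 with hl
  have hl0 : 0 < l := by positivity
  have hCr : (2:ℝ) ^ j * (L : ℝ) ^ 2 ≤ 4 * (f s0 : ℝ) := by exact_mod_cast hC
  -- the number of the copies
  have hmq : (n : ℝ) ≤ 2 * (m * (T.card * (L : ℝ) ^ 2)) := by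
    have e1 : r < q := Nat.mod_lt _ hqpos
    have e2 : q ≤ 2 * L ^ 4 := by
      rw [hq]
      calc T.card * L ^ 2 ≤ 2 * L ^ 2 * L ^ 2 := Nat.mul_le_mul_right _ hTc
        _ = 2 * L ^ 4 := by ring
    have e3 : n ≤ 2 * (m * q) := by omega
    have e4 : (n : ℝ) ≤ 2 * (m * q) := by exact_mod_cast e3
    rw [hq] at e4
    push_cast at e4
    exact e4
  have h4 : (n : ℝ) * 2 ^ j / (64 * l ^ 3) ≤
      m * (∑ b ∈ T, (f (b : ℝ) : ℝ) - ∑ b ∈ T, (f ((b : ℝ) * d ^ 2) : ℝ)) := by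
    rw [div_le_iff₀ (by positivity)]
    have e1 : (n : ℝ) * 2 ^ j ≤ 2 * (m * (T.card * (L : ℝ) ^ 2)) * 2 ^ j :=
      mul_le_mul_of_nonneg_right hmq (by positivity)
    have e2 : 2 * ((m : ℝ) * (T.card * (L : ℝ) ^ 2)) * 2 ^ j = 2 * (m * T.card) * (2 ^ j * (L : ℝ) ^ 2) := by ring
    have e3 : 2 * ((m : ℝ) * T.card) * (2 ^ j * (L : ℝ) ^ 2) ≤ 2 * (m * T.card) * (4 * (f s0 : ℝ)) :=
      mul_le_mul_of_nonneg_left hCr (by positivity)
    have e4 : (m : ℝ) * ((f s0 : ℝ) * T.card) ≤ m * (8 * l ^ 3 *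
        (∑ b ∈ T, (f (b : ℝ) : ℝ) - ∑ b ∈ T, (f ((b : ℝ) * d ^ 2) : ℝ))) :=
      mul_le_mul_of_nonneg_left h3 (Nat.cast_nonneg m)
    nlinarith
  have h5 : (m : ℝ) * (∑ b ∈ T, (f (b : ℝ) : ℝ) - ∑ b ∈ T, (f ((b : ℝ) * d ^ 2) : ℝ)) =
      m * ∑ b ∈ T, (f (b : ℝ) : ℝ) - m * ∑ b ∈ T, (f ((b : ℝ) * d ^ 2) : ℝ) := by ring
  linarith

end H306G
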