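import Pool.Agent.H306G.Defs

set_option autoImplicit false
open Finset

namespace H306G

theorem D_pig (ℓ S : ℕ) (hℓ : 1 ≤ ℓ) (hS : S < 2 ^ ℓ) (t : ℕ → ℕ) (h0 : t 0 ≤ S)
    (hK : 1 ≤ t (2 * ℓ ^ 2)) :
    ∃ k, k < 2 * ℓ ^ 2 ∧ (2 * (ℓ : ℝ) - 1) * t k ≤ 2 * (ℓ : ℝ) * t (k + 1) := by
  by_contra hcon
  push Not at hcon
  have hl : (1 : ℝ) ≤ ℓ := by exact_mod_cast hℓ
  have hind : ∀ k, k ≤ 2 * ℓ ^ 2 → (t k : ℝ) ≤ (1 - 1 / (2 * (ℓ : ℝ))) ^ k * t 0 := by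
    intro k
    induction k with
    | zero => intro _; simp
    | succ k ih =>
      intro hk
      have h1 := ih (by omega)
      have h2 := hcon k (by omega)
      have h3 : (t (k + 1) : ℝ) ≤ (1 - 1 / (2 * (ℓ : ℝ))) * t k := by
        have : (1 - 1 / (2 * (ℓ : ℝ))) * t k = ((2 * (ℓ : ℝ) - 1) * t k) / (2 * ℓ) := by
          field_simp
        rw [this, le_div_iff₀ (by positivity)]
        nlinarith
      have h4 : (0 : ℝ) ≤ 1 - 1 / (2 * (ℓ : ℝ)) := by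
        have : 1 / (2 * (ℓ : ℝ)) ≤ 1 := by
          rw [div_le_one (by positivity)]; linarith
        linarith
      calc (t (k + 1) : ℝ) ≤ (1 - 1 / (2 * (ℓ : ℝ))) * t k := h3
        _ ≤ (1 - 1 / (2 * (ℓ : ℝ))) * ((1 - 1 / (2 * (ℓ : ℝ))) ^ k * t 0) :=
            mul_le_mul_of_nonneg_left h1 h4
        _ = _ := by ring
  have h5 := hind (2 * ℓ ^ 2) le_rfl
  have h6 : (1 - 1 / (2 * (ℓ : ℝ))) ^ (2 * ℓ ^ 2) ≤ Real.exp (-(ℓ : ℝ)) := by
    have h4 : (0 : ℝ) ≤ 1 - 1 / (2 * (ℓ : ℝ)) := by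
      have : 1 / (2 * (ℓ : ℝ)) ≤ 1 := by
        rw [div_le_one (by positivity)]; linarith
      linarith
    calc (1 - 1 / (2 * (ℓ : ℝ))) ^ (2 * ℓ ^ 2)
        ≤ (Real.exp (-(1 / (2 * (ℓ : ℝ))))) ^ (2 * ℓ ^ 2) :=
          pow_le_pow_left₀ h4 (by have := Real.add_one_le_exp (-(1 / (2 * (ℓ : ℝ)))); linarith) _
      _ = Real.exp (-(ℓ : ℝ)) := by
          rw [← Real.exp_nat_mul]
          congr 1
          push_cast
          field_simp
  have h7 : (t 0 : ℝ) ≤ S := by exact_mod_cast h0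
  have h8 : (S : ℝ) < 2 ^ ℓ := by exact_mod_cast hS
  have h9 : (2 : ℝ) ^ ℓ ≤ Real.exp ℓ := by
    have : (2 : ℝ) ≤ Real.exp 1 := by
      have := Real.add_one_le_exp (1 : ℝ); linarith
    calc (2 : ℝ) ^ ℓ ≤ (Real.exp 1) ^ ℓ := pow_le_pow_left₀ (by norm_num) this _
      _ = Real.exp ℓ := by rw [← Real.exp_nat_mul]; simp
  have h10 : (1 : ℝ) ≤ t (2 * ℓ ^ 2) := by exact_mod_cast hK
  have h11 : Real.exp (-(ℓ : ℝ)) * Real.exp ℓ = 1 := by
    rw [← Real.exp_add]; simp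
  have h12 : (0 : ℝ) < Real.exp (-(ℓ : ℝ)) := Real.exp_pos _
  have h13 : (0 : ℝ) ≤ t 0 := by positivity
  have h14 : (1 - 1 / (2 * (ℓ : ℝ))) ^ (2 * ℓ ^ 2) * (t 0 : ℝ) ≤ Real.exp (-(ℓ : ℝ)) * t 0 :=
    mul_le_mul_of_nonneg_right h6 h13
  nlinarith

theorem D_thm (hD1 : D1_stmt) : D_stmt := by
  classical
  intro S f hS hsupp s0 hs0 hf
  obtain ⟨k0, hk0, hk0S, hk0e⟩ := hsupp s0 hs0 hf.ne'
  set ℓ : ℕ := Nat.log 2 S + 1 with hℓd
  have hℓ : 1 ≤ ℓ := by omega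
  have hSℓ : S < 2 ^ ℓ := Nat.lt_pow_succ_log_self (by norm_num) S
  set M : ℝ := (f s0 : ℝ) with hM
  have hMpos : 0 < M := by rw [hM]; exact_mod_cast hf
  have hl : (1 : ℝ) ≤ ℓ := by exact_mod_cast hℓ
  set h : ℝ := M / (4 * (ℓ : ℝ) ^ 2) with hh
  have hhpos : 0 < h := by positivity
  let Q : ℕ → ℝ := fun k => M / 2 + k * h
  let T : ℕ → Finset ℕ := fun k => (Icc 1 S).filter (fun b => Q k ≤ (f (b : ℝ) : ℝ))
  have hQpos : ∀ k, 0 < Q k := fun k => by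
    have : (0 : ℝ) ≤ (k : ℝ) * h := by positivity
    show 0 < M / 2 + k * h
    linarith
  have hk0T : ∀ k, k ≤ 2 * ℓ ^ 2 → k0 ∈ T k := by
    intro k hk
    simp only [T, mem_filter, mem_Icc]
    refine ⟨⟨hk0, hk0S⟩, ?_⟩
    rw [← hk0e, ← hM]
    have h1 : (k : ℝ) ≤ 2 * (ℓ : ℝ) ^ 2 := by exact_mod_cast hk
    have h2 : (k : ℝ) * h ≤ 2 * (ℓ : ℝ) ^ 2 * h := mul_le_mul_of_nonneg_right h1 hhpos.le
    have h3 : 2 * (ℓ : ℝ) ^ 2 * h = M / 2 := by
      rw [hh]; field_simp; ring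
    show M / 2 + k * h ≤ M
    linarith
  obtain ⟨k, hk, hkT⟩ := D_pig ℓ S hℓ hSℓ (fun k => (T k).card)
    (by
      calc (T 0).card ≤ (Icc 1 S).card := card_filter_le _ _
        _ = S := by simp)
    (card_pos.2 ⟨k0, hk0T _ le_rfl⟩)
  have hTsub : T (k + 1) ⊆ T k := by
    intro b hb
    simp only [T, mem_filter] at hb ⊢
    refine ⟨hb.1, le_trans ?_ hb.2⟩
    show M / 2 + k * h ≤ M / 2 + ((k + 1 : ℕ) : ℝ) * h
    push_cast
    linarith
  refine ⟨T k, ⟨k0, hk0T k hk.le⟩, ?_, ?_⟩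
  · intro b hb
    simp only [T, mem_filter, mem_Icc] at hb
    exact hb.1
  intro x hx hx1
  set A : Finset ℕ := (T k).filter (fun b => ∃ c ∈ T k, (c : ℝ) = b * x) with hA
  set B : Finset ℕ := (T k).filter (fun c => ∃ b ∈ T k, (c : ℝ) = b * x) with hB
  have hD1' := hD1 S (T k) hS (by
    intro b hb
    simp only [T, mem_filter, mem_Icc] at hb
    exact hb.1) x hx hx1 A (filter_subset _ _) (by
    intro b hb
    exact (mem_filter.1 hb).2)
  -- bijection between A and B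
  have hmapA : ∀ b ∈ A, ⌊(b : ℝ) * x⌋₊ ∈ B ∧ ((⌊(b : ℝ) * x⌋₊ : ℕ) : ℝ) = b * x := by
    intro b hb
    obtain ⟨hb1, c, hc, hce⟩ := mem_filter.1 hb
    have : ⌊(b : ℝ) * x⌋₊ = c := by rw [← hce]; simp
    rw [this]
    exact ⟨mem_filter.2 ⟨hc, b, hb1, hce⟩, hce⟩
  have hmapB : ∀ c ∈ B, ⌊(c : ℝ) / x⌋₊ ∈ A ∧ ((⌊(c : ℝ) / x⌋₊ : ℕ) : ℝ) = c / x := by
    intro c hc
    obtain ⟨hc1, b, hb, hbe⟩ := mem_filter.1 hc
    have hb' : (c : ℝ) / x = b := by rw [hbe]; field_simp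
    have : ⌊(c : ℝ) / x⌋₊ = b := by rw [hb']; simp
    rw [this]
    exact ⟨mem_filter.2 ⟨hb, c, hc1, hbe⟩, hb'.symm⟩
  have hcard : A.card = B.card := by
    apply card_nbij' (fun b : ℕ => ⌊(b : ℝ) * x⌋₊) (fun c : ℕ => ⌊(c : ℝ) / x⌋₊)
    · intro b hb; exact (hmapA b hb).1
    · intro c hc; exact (hmapB c hc).1
    · intro b hb
      simp only
      rw [(hmapA b hb).2]
      have : (b : ℝ) * x / x = b := by field_simp
      rw [this]; simp
    · intro c hc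
      simp only
      rw [(hmapB c hc).2]
      have : (c : ℝ) / x * x = c := by field_simp
      rw [this]; simp
  have hsum : ∑ b ∈ A, (f ((b : ℝ) * x) : ℝ) = ∑ c ∈ B, (f (c : ℝ) : ℝ) := by
    apply sum_nbij' (fun b : ℕ => ⌊(b : ℝ) * x⌋₊) (fun c : ℕ => ⌊(c : ℝ) / x⌋₊)
    · intro b hb; exact (hmapA b hb).1
    · intro c hc; exact (hmapB c hc).1
    · intro b hb
      rw [(hmapA b hb).2]
      have : (b : ℝ) * x / x = b := by field_simp
      rw [this]; simp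
    · intro c hc
      rw [(hmapB c hc).2]
      have : (c : ℝ) / x * x = c := by field_simp
      rw [this]; simp
    · intro b hb
      rw [(hmapA b hb).2]
  have hAT : A ⊆ T k := filter_subset _ _
  have hBT : B ⊆ T k := filter_subset _ _
  have hsplit1 : ∑ b ∈ T k, (f ((b : ℝ) * x) : ℝ) =
      ∑ b ∈ T k \ A, (f ((b : ℝ) * x) : ℝ) + ∑ b ∈ A, (f ((b : ℝ) * x) : ℝ) :=
    (sum_sdiff hAT).symm
  have hsplit2 : ∑ b ∈ T k, (f (b : ℝ) : ℝ) =
      ∑ b ∈ T k \ B, (f (b : ℝ) : ℝ) + ∑ b ∈ B, (f (b : ℝ) : ℝ) :=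
    (sum_sdiff hBT).symm
  have hsmall : ∑ b ∈ T k \ A, (f ((b : ℝ) * x) : ℝ) ≤ ((T k \ A).card : ℝ) * Q k := by
    rw [← nsmul_eq_mul]
    apply sum_le_card_nsmul
    intro b hb
    obtain ⟨hb1, hb2⟩ := mem_sdiff.1 hb
    by_contra hcon
    push Not at hcon
    have hb3 : 1 ≤ b := by
      simp only [T, mem_filter, mem_Icc] at hb1
      exact hb1.1.1
    have hb4 : (0 : ℝ) < (b : ℝ) * x := by
      have : (0 : ℝ) < b := by exact_mod_cast hb3
      positivity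
    have hne : f ((b : ℝ) * x) ≠ 0 := by
      intro h0
      rw [h0] at hcon
      have := hQpos k
      simp at hcon
      linarith
    obtain ⟨c, hc1, hc2, hc3⟩ := hsupp _ hb4 hne
    apply hb2
    refine mem_filter.2 ⟨hb1, c, ?_, hc3.symm⟩
    simp only [T, mem_filter, mem_Icc]
    refine ⟨⟨hc1, hc2⟩, ?_⟩
    rw [← hc3]
    exact hcon.le
  have hbig : ((T k \ B).card : ℝ) * Q k + (((T k \ B) ∩ T (k + 1)).card : ℝ) * h ≤
      ∑ b ∈ T k \ B, (f (b : ℝ) : ℝ) := by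
    have h1 : ∑ b ∈ T k \ B, (Q k + if b ∈ T (k + 1) then h else 0) ≤
        ∑ b ∈ T k \ B, (f (b : ℝ) : ℝ) := by
      apply sum_le_sum
      intro b hb
      obtain ⟨hb1, hb2⟩ := mem_sdiff.1 hb
      by_cases hb3 : b ∈ T (k + 1)
      · rw [if_pos hb3]
        have h4 : Q (k + 1) ≤ (f (b : ℝ) : ℝ) := by
          simp only [T, mem_filter] at hb3
          exact hb3.2
        have h5 : Q (k + 1) = Q k + h := by
          show M / 2 + ((k + 1 : ℕ) : ℝ) * h = M / 2 + k * h + h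
          push_cast; ring
        linarith
      · rw [if_neg hb3]
        have h4 : Q k ≤ (f (b : ℝ) : ℝ) := by
          simp only [T, mem_filter] at hb1
          exact hb1.2
        linarith
    rw [sum_add_distrib, sum_const, nsmul_eq_mul, ← sum_filter, sum_const, nsmul_eq_mul] at h1
    have h2 : (T k \ B).filter (fun b => b ∈ T (k + 1)) = (T k \ B) ∩ T (k + 1) := by
      ext b; simp
    rw [h2] at h1
    exact h1
  have hcA : ((T k \ A).card : ℝ) = (T k).card - A.card := by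
    rw [card_sdiff_of_subset hAT, Nat.cast_sub (card_le_card hAT)]
  have hcB : ((T k \ B).card : ℝ) = (T k).card - A.card := by
    rw [card_sdiff_of_subset hBT, Nat.cast_sub (card_le_card hBT), hcard]
  have hint : ((T k).card : ℝ) - A.card - ((T k).card - (T (k + 1)).card) ≤
      (((T k \ B) ∩ T (k + 1)).card : ℝ) := by
    have h1 : (T k \ B).card ≤ ((T k \ B) ∩ T (k + 1)).card + (T k \ T (k + 1)).card := by
      rw [← card_inter_add_card_sdiff (T k \ B) (T (k + 1))]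
      have : (T k \ B) \ T (k + 1) ⊆ T k \ T (k + 1) :=
        sdiff_subset_sdiff sdiff_subset (subset_refl _)
      have := card_le_card this
      omega
    have h2 : ((T k \ T (k + 1)).card : ℝ) = (T k).card - (T (k + 1)).card := by
      rw [card_sdiff_of_subset hTsub, Nat.cast_sub (card_le_card hTsub)]
    have h3 : ((T k \ B).card : ℝ) ≤ (((T k \ B) ∩ T (k + 1)).card : ℝ) +
        ((T k \ T (k + 1)).card : ℝ) := by exact_mod_cast h1
    rw [hcB, h2] at h3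
    linarith
  have hD1r : ((T k).card : ℝ) ≤ ℓ * ((T k).card - A.card) := by
    have h1 : ((T k).card : ℝ) ≤ ((ℓ * ((T k).card - A.card) : ℕ) : ℝ) := by exact_mod_cast hD1'
    rw [Nat.cast_mul, Nat.cast_sub (card_le_card hAT)] at h1
    exact h1
  have hgap : h * (((T k \ B) ∩ T (k + 1)).card : ℝ) ≤
      ∑ b ∈ T k, (f (b : ℝ) : ℝ) - ∑ b ∈ T k, (f ((b : ℝ) * x) : ℝ) := by
    rw [hsplit1, hsplit2, hsum]
    rw [hcA] at hsmall
    rw [hcB] at hbig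
    linarith
  set a : ℝ := ((T k).card : ℝ)
  set a' : ℝ := ((T (k + 1)).card : ℝ)
  set c : ℝ := (((T k \ B) ∩ T (k + 1)).card : ℝ)
  have h20 : a ≤ 2 * ℓ * c := by
    have e1 : ℓ * (a - A.card - (a - a')) ≤ ℓ * c := mul_le_mul_of_nonneg_left hint (by linarith)
    nlinarith
  have h21 : M * a ≤ 8 * (ℓ : ℝ) ^ 3 * (h * c) := by
    have e2 : 8 * (ℓ : ℝ) ^ 3 * (h * c) = M * (2 * ℓ * c) := by
      rw [hh]; field_simp; ring
    rw [e2]
    exact mul_le_mul_of_nonneg_left h20 hMpos.le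
  have hcast : ((Nat.log 2 S : ℝ) + 1) = (ℓ : ℝ) := by rw [hℓd]; push_cast; ring
  rw [hcast]
  calc M * a ≤ 8 * (ℓ : ℝ) ^ 3 * (h * c) := h21
    _ ≤ _ := mul_le_mul_of_nonneg_left hgap (by positivity)

end H306G
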