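import Pool.Agent.H306G.Defs

set_option autoImplicit false
open Finset

namespace H306G

theorem D1_aux {S : ℕ} {T A B : Finset ℕ} (hT : ∀ b ∈ T, 1 ≤ b ∧ b ≤ S) (hA : A ⊆ T) (hB : B ⊆ T)
    (hAB : A.card = B.card) (v : ℕ → ℕ) (hv : ∀ b ∈ T, v b ≤ Nat.log 2 S)
    (h : ∑ b ∈ B, v b + A.card ≤ ∑ b ∈ A, v b) :
    T.card ≤ (Nat.log 2 S + 1) * (T.card - B.card) := by
  have h1 : ∑ b ∈ A, v b ≤ ∑ b ∈ T, v b := sum_le_sum_of_subset hA
  have h2 : ∑ b ∈ T \ B, v b + ∑ b ∈ B, v b = ∑ b ∈ T, v b := sum_sdiff hB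
  have h3 : ∑ b ∈ T \ B, v b ≤ (T \ B).card * Nat.log 2 S := by
    have := sum_le_card_nsmul (T \ B) v (Nat.log 2 S) (fun b hb => hv b (mem_sdiff.1 hb).1)
    simpa using this
  have h4 : (T \ B).card = T.card - B.card := card_sdiff_of_subset hB
  have h5 : B.card ≤ T.card := card_le_card hB
  rw [h4] at h3
  have h6 : A.card ≤ (T.card - B.card) * Nat.log 2 S := by omega
  have h7 : (Nat.log 2 S + 1) * (T.card - B.card) = (T.card - B.card) * Nat.log 2 S + (T.card - B.card) := by ring
  rw [h7]
  omega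

theorem D1_thm : D1_stmt := by
  intro S T hS hT x hx hx1 A hA hAx
  classical
  rcases A.eq_empty_or_nonempty with rfl | ⟨b0, hb0⟩
  · simp only [card_empty, Nat.sub_zero]
    exact Nat.le_mul_of_pos_left _ (Nat.succ_pos _)
  obtain ⟨c0, hc0T, hc0⟩ := hAx b0 hb0
  have hb0p : 1 ≤ b0 := (hT b0 (hA hb0)).1
  have hc0p : 1 ≤ c0 := (hT c0 hc0T).1
  have hb0r : (0:ℝ) < b0 := by exact_mod_cast hb0p
  have hne : c0 ≠ b0 := by
    rintro rfl
    apply hx1
    have : (c0 : ℝ) * x = c0 * 1 := by rw [mul_one, ← hc0]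
    exact mul_left_cancel₀ hb0r.ne' this
  -- the prime
  obtain ⟨p, hp, hpv⟩ : ∃ p : ℕ, p.Prime ∧ c0.factorization p ≠ b0.factorization p := by
    by_contra hcon
    push Not at hcon
    apply hne
    apply Nat.eq_of_factorization_eq (by omega) (by omega)
    intro p
    by_cases hp : p.Prime
    · exact hcon p hp
    · rw [Nat.factorization_eq_zero_of_not_prime _ hp, Nat.factorization_eq_zero_of_not_prime _ hp]
  choose! φ hφT hφ using hAx
  have hinj : Set.InjOn φ A := by
    intro a ha b hb hab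
    have h1 := hφ a ha
    have h2 := hφ b hb
    rw [hab, h2] at h1
    exact_mod_cast (mul_right_cancel₀ hx.ne' h1).symm
  have hval : ∀ b ∈ A, (φ b).factorization p + b0.factorization p = b.factorization p + c0.factorization p := by
    intro b hb
    have h1 : ((φ b : ℕ) : ℝ) * b0 = b * c0 := by rw [hφ b hb, hc0]; ring
    have h2 : φ b * b0 = b * c0 := by exact_mod_cast h1
    have hφp : 1 ≤ φ b := (hT _ (hφT b hb)).1
    have hbp : 1 ≤ b := (hT _ (hA hb)).1
    have h3 := congrArg (fun m => Nat.factorization m p) h2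
    simp only [Nat.factorization_mul (show φ b ≠ 0 by omega) (show b0 ≠ 0 by omega),
      Nat.factorization_mul (show b ≠ 0 by omega) (show c0 ≠ 0 by omega), Finsupp.add_apply] at h3
    exact h3
  have hv : ∀ b ∈ T, (fun m => Nat.factorization m p) b ≤ Nat.log 2 S := by
    intro b hb
    obtain ⟨h1, h2⟩ := hT b hb
    have h3 : 2 ^ (b.factorization p) ≤ b :=
      (Nat.pow_le_pow_left hp.two_le _).trans (Nat.ordProj_le p (by omega))
    exact (Nat.le_log_of_pow_le (by norm_num) h3).trans (Nat.log_mono_right h2)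
  have hcard : (A.image φ).card = A.card := card_image_of_injOn hinj
  have himg : A.image φ ⊆ T := by
    intro c hc
    obtain ⟨b, hb, rfl⟩ := mem_image.1 hc
    exact hφT b hb
  have hsum : ∑ c ∈ A.image φ, c.factorization p = ∑ b ∈ A, (φ b).factorization p :=
    sum_image hinj
  rcases lt_or_gt_of_ne hpv with hlt | hgt
  · -- valuations decrease
    have h := D1_aux (A := A) (B := A.image φ) hT hA himg hcard.symm (fun m => m.factorization p) hv (by
      rw [hsum, card_eq_sum_ones, ← sum_add_distrib]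
      apply sum_le_sum
      intro b hb
      have := hval b hb
      omega)
    rwa [hcard] at h
  · have h := D1_aux (A := A.image φ) (B := A) hT himg hA hcard (fun m => m.factorization p) hv (by
      rw [hsum, hcard, card_eq_sum_ones, ← sum_add_distrib]
      apply sum_le_sum
      intro b hb
      have := hval b hb
      omega)
    exact h

end H306G
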