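import Pool.Agent.H306G.Defs

set_option autoImplicit false

namespace H306G.F275

lemma F_pow (j : ℕ) (hj : 20 ≤ j) : (4 * (j ^ 2) ^ 2 + 1) ^ 2 < 4 ^ j := by
  induction j, hj using Nat.le_induction with
  | base => norm_num
  | succ j hj ih =>
    have h1 : (4 * ((j + 1) ^ 2) ^ 2 + 1) ≤ 2 * (4 * (j ^ 2) ^ 2 + 1) := by
      nlinarith [pow_le_pow_left' hj 2, pow_le_pow_left' hj 3, pow_le_pow_left' hj 4,
        sq_nonneg (j : ℤ), mul_le_mul hj (le_refl (j ^ 3)) (Nat.zero_le _) (Nat.zero_le _),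
        mul_le_mul hj (le_refl (j ^ 2)) (Nat.zero_le _) (Nat.zero_le _),
        mul_le_mul hj (le_refl j) (Nat.zero_le _) (Nat.zero_le _)]
    calc (4 * ((j + 1) ^ 2) ^ 2 + 1) ^ 2 ≤ (2 * (4 * (j ^ 2) ^ 2 + 1)) ^ 2 :=
          Nat.pow_le_pow_left h1 2
      _ = 4 * (4 * (j ^ 2) ^ 2 + 1) ^ 2 := by ring
      _ < 4 * 4 ^ j := by omega
      _ = 4 ^ (j + 1) := by ring

lemma F_two (j : ℕ) (hj : 7 ≤ j) : 2 * j ^ 2 + 1 ≤ 2 ^ j := by
  induction j, hj using Nat.le_induction with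
  | base => norm_num
  | succ j hj ih =>
    calc 2 * (j + 1) ^ 2 + 1 ≤ 2 * (2 * j ^ 2 + 1) := by nlinarith
      _ ≤ 2 * 2 ^ j := by omega
      _ = 2 ^ (j + 1) := by ring

lemma F_log (j : ℕ) (hj : 7 ≤ j) :
    Nat.log 2 (2 * (2 * (2 * j ^ 2 + 1) ^ j) ^ 2) + 1 ≤ 3 * j ^ 2 := by
  have h1 : 2 * (2 * (2 * j ^ 2 + 1) ^ j) ^ 2 ≤ 2 ^ (3 + 2 * j * j) := by
    have h2 : (2 * j ^ 2 + 1) ^ j ≤ (2 ^ j) ^ j := Nat.pow_le_pow_left (F_two j hj) j
    calc 2 * (2 * (2 * j ^ 2 + 1) ^ j) ^ 2 ≤ 2 * (2 * (2 ^ j) ^ j) ^ 2 := by gcongr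
      _ = 2 ^ (3 + 2 * j * j) := by
          rw [← pow_mul, pow_add, mul_pow, ← pow_mul]
          ring_nf
  have h3 : Nat.log 2 (2 * (2 * (2 * j ^ 2 + 1) ^ j) ^ 2) ≤ 3 + 2 * j * j := by
    calc _ ≤ Nat.log 2 (2 ^ (3 + 2 * j * j)) := Nat.log_mono_right h1
      _ = 3 + 2 * j * j := Nat.log_pow (by norm_num) _
  nlinarith

/-- `5184 j^6 ≤ 2^(j/2)` for large `j` -/
lemma F_big : ∃ J : ℕ, 20 ≤ J ∧ ∀ j : ℕ, J ≤ j →
    5184 * (j : ℝ) ^ 6 ≤ Real.exp (Real.log 2 / 2 * j) := by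
  have h := (isLittleO_pow_exp_pos_mul_atTop 6 (show (0 : ℝ) < Real.log 2 / 2 by
    have := Real.log_pos (one_lt_two); positivity))
  have h2 := h.def (show (0 : ℝ) < 1 / 5184 by norm_num)
  rw [Filter.eventually_atTop] at h2
  obtain ⟨a, ha⟩ := h2
  obtain ⟨M, hM⟩ := exists_nat_ge a
  refine ⟨max 20 M, le_max_left _ _, fun j hj => ?_⟩
  have h3 := ha j (hM.trans (by exact_mod_cast (le_max_right _ _).trans hj))
  rw [Real.norm_of_nonneg (by positivity), Real.norm_of_nonneg (Real.exp_pos _).le] at h3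
  linarith

def Lf (j : ℕ) : ℕ := 2 * (2 * j ^ 2 + 1) ^ j

lemma Lf_ge (j : ℕ) : 2 ≤ Lf j := by
  unfold Lf
  have : 1 ≤ (2 * j ^ 2 + 1) ^ j := Nat.one_le_pow _ _ (by omega)
  omega

lemma Lf_gt (j : ℕ) : 3 ^ j ≤ Lf j := by
  unfold Lf
  rcases Nat.eq_zero_or_pos j with rfl | hj
  · simp
  · have : 3 ≤ 2 * j ^ 2 + 1 := by nlinarith
    have := Nat.pow_le_pow_left this j
    omega

/-- `log L_{j+1} ≤ 7 j log j` -/
lemma log_Lf (j : ℕ) (hj : 20 ≤ j) :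
    Real.log (Lf (j + 1)) ≤ 7 * j * Real.log j := by
  have hj0 : (0 : ℝ) < j := by exact_mod_cast (by omega : 0 < j)
  have hj20 : (20 : ℝ) ≤ j := by exact_mod_cast hj
  have hlog : Real.log 3 ≤ Real.log j := Real.log_le_log (by norm_num) (by linarith)
  have hlog2 : Real.log 2 ≤ Real.log j := Real.log_le_log (by norm_num) (by linarith)
  have hl0 : 0 < Real.log j := Real.log_pos (by linarith)
  have e : ((Lf (j + 1) : ℕ) : ℝ) = 2 * (2 * ((j : ℝ) + 1) ^ 2 + 1) ^ (j + 1) := by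
    unfold Lf; push_cast; ring
  rw [e, Real.log_mul (by norm_num) (by positivity), Real.log_pow]
  have h1 : Real.log (2 * ((j : ℝ) + 1) ^ 2 + 1) ≤ 3 * Real.log j := by
    have h2 : 2 * ((j : ℝ) + 1) ^ 2 + 1 ≤ (j : ℝ) ^ 3 := by nlinarith [sq_nonneg (j : ℝ)]
    calc _ ≤ Real.log ((j : ℝ) ^ 3) := Real.log_le_log (by positivity) h2
      _ = 3 * Real.log j := by rw [Real.log_pow]; norm_num
  have h3 : ((j + 1 : ℕ) : ℝ) * Real.log (2 * ((j : ℝ) + 1) ^ 2 + 1) ≤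
      (2 * j) * (3 * Real.log j) := by
    apply mul_le_mul _ h1 (Real.log_nonneg (by nlinarith)) (by positivity)
    push_cast; linarith
  nlinarith

theorem F_thm275 : F_stmt := by
  obtain ⟨J, hJ20, hJ⟩ := F_big
  have hl2 : 0 < Real.log 2 := Real.log_pos one_lt_two
  refine ⟨Real.log 2 / 112, by positivity, (Lf J) ^ 8, fun n hn => ?_⟩
  classical
  -- the first j ≥ J with L_{j+1}^8 > n
  have hex : ∃ j, J ≤ j ∧ n < (Lf (j + 1)) ^ 8 := by
    refine ⟨max J n, le_max_left _ _, ?_⟩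
    have h1 : n < 3 ^ (max J n + 1) :=
      lt_of_le_of_lt (le_max_right J n) (lt_of_lt_of_le (Nat.lt_pow_self (by norm_num))
        (Nat.pow_le_pow_right (by norm_num) (by omega)))
    have h2 := Lf_gt (max J n + 1)
    calc n < Lf (max J n + 1) := lt_of_lt_of_le h1 h2
      _ ≤ (Lf (max J n + 1)) ^ 8 := Nat.le_self_pow (by norm_num) _
  obtain ⟨hj1, hj2⟩ := Nat.find_spec hex
  have hmin : ∀ k, k < Nat.find hex → ¬ (J ≤ k ∧ n < (Lf (k + 1)) ^ 8) := fun k hk =>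
    Nat.find_min hex hk
  generalize Nat.find hex = j at hj1 hj2 hmin
  have hjn : (Lf j) ^ 8 ≤ n := by
    rcases Nat.eq_or_lt_of_le hj1 with h | h
    · rw [← h]; exact hn
    · have := hmin (j - 1) (by omega)
      have h2 : ¬ n < (Lf (j - 1 + 1)) ^ 8 := fun h3 => this ⟨by omega, h3⟩
      rw [show j - 1 + 1 = j by omega] at h2
      omega
  have hj20 : 20 ≤ j := hJ20.trans hj1
  have hL2 : 2 ≤ Lf j := Lf_ge j
  refine ⟨j, Lf j, by omega, ?_, rfl, ?_, ?_⟩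
  · calc (4 * (j ^ 2) ^ 2 + 1) ^ (2 * j) = ((4 * (j ^ 2) ^ 2 + 1) ^ 2) ^ j := by rw [pow_mul]
      _ < (4 ^ j) ^ j := Nat.pow_lt_pow_left (F_pow j hj20) (by omega)
      _ = 4 ^ (j ^ 2) := by rw [← pow_mul, pow_two]
  · have : 4 ≤ (Lf j) ^ 4 := by
      calc 4 ≤ 2 ^ 4 := by norm_num
        _ ≤ (Lf j) ^ 4 := Nat.pow_le_pow_left hL2 4
    calc 4 * (Lf j) ^ 4 ≤ (Lf j) ^ 4 * (Lf j) ^ 4 := Nat.mul_le_mul_right _ this
      _ = (Lf j) ^ 8 := by ring
      _ ≤ n := hjn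
  · -- the main estimate
    have hjr : (20 : ℝ) ≤ j := by exact_mod_cast hj20
    have hlj : 0 < Real.log j := Real.log_pos (by linarith)
    have hn1 : 1 ≤ n := le_trans (Nat.one_le_pow _ _ (by omega)) hjn
    have hn0 : (0 : ℝ) < n := by exact_mod_cast hn1
    -- log n ≥ j
    have hlogn : (j : ℝ) ≤ Real.log n := by
      have h1 : (3 : ℝ) ^ j ≤ n := by
        have : 3 ^ j ≤ n := (Lf_gt j).trans ((Nat.le_self_pow (by norm_num) _).trans hjn)
        exact_mod_cast this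
      have h2 : (j : ℝ) * Real.log 3 ≤ Real.log n := by
        rw [← Real.log_pow]
        exact Real.log_le_log (by positivity) h1
      have h3 : (1 : ℝ) ≤ Real.log 3 := by
        rw [Real.le_log_iff_exp_le (by norm_num)]
        linarith [Real.exp_one_lt_d9]
      nlinarith
    have hll : Real.log j ≤ Real.log (Real.log n) := Real.log_le_log (by linarith) hlogn
    have hll0 : 0 < Real.log (Real.log n) := hlj.trans_le hll
    -- log n ≤ 56 j log j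
    have hup : Real.log n ≤ 56 * j * Real.log j := by
      have h1 : (n : ℝ) ≤ ((Lf (j + 1) : ℕ) : ℝ) ^ 8 := by exact_mod_cast hj2.le
      have h2 : Real.log n ≤ 8 * Real.log (Lf (j + 1)) := by
        calc Real.log n ≤ Real.log (((Lf (j + 1) : ℕ) : ℝ) ^ 8) := Real.log_le_log hn0 h1
          _ = 8 * Real.log (Lf (j + 1)) := by rw [Real.log_pow]; norm_num
      have h3 := log_Lf j hj20
      nlinarith
    have hexp : Real.log n * (Real.log 2 / 112 / Real.log (Real.log n)) ≤ Real.log 2 / 2 * j := by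
      rw [mul_div_assoc', div_le_iff₀ hll0]
      have : Real.log n ≤ 56 * j * Real.log (Real.log n) :=
        hup.trans (mul_le_mul_of_nonneg_left hll (by positivity))
      nlinarith
    have hpow : (n : ℝ) ^ (1 + Real.log 2 / 112 / Real.log (Real.log n)) ≤
        n * Real.exp (Real.log 2 / 2 * j) := by
      rw [Real.rpow_add hn0, Real.rpow_one]
      apply mul_le_mul_of_nonneg_left _ hn0.le
      rw [Real.rpow_def_of_pos hn0]
      exact Real.exp_le_exp.2 hexp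
    set E := Real.exp (Real.log 2 / 2 * j) with hE
    have hEE : E * E = 2 ^ j := by
      rw [hE, ← Real.exp_add, show Real.log 2 / 2 * (j : ℝ) + Real.log 2 / 2 * j =
        (j : ℝ) * Real.log 2 by ring, ← Real.log_pow, Real.exp_log (by positivity)]
    have hbig : 5184 * (j : ℝ) ^ 6 ≤ E := hJ j hj1
    have hE0 : 0 < E := Real.exp_pos _
    have hE1 : 1 ≤ E := by
      have : (1 : ℝ) ≤ 5184 * (j : ℝ) ^ 6 := by
        have : (1 : ℝ) ≤ (j : ℝ) ^ 6 := one_le_pow₀ (by linarith)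
        linarith
      linarith
    -- the denominator
    have hden : 64 * ((Nat.log 2 (2 * (Lf j) ^ 2) : ℝ) + 1) ^ 3 ≤ 1728 * (j : ℝ) ^ 6 := by
      have h1 := F_log j (by omega)
      have h2 : ((Nat.log 2 (2 * (Lf j) ^ 2) : ℕ) : ℝ) + 1 ≤ 3 * (j : ℝ) ^ 2 := by
        exact_mod_cast h1
      have h3 : (((Nat.log 2 (2 * (Lf j) ^ 2) : ℕ) : ℝ) + 1) ^ 3 ≤ (3 * (j : ℝ) ^ 2) ^ 3 :=
        pow_le_pow_left₀ (by positivity) h2 3
      calc _ ≤ 64 * (3 * (j : ℝ) ^ 2) ^ 3 := by linarith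
        _ = 1728 * (j : ℝ) ^ 6 := by ring
    have hdpos : 0 < 64 * ((Nat.log 2 (2 * (Lf j) ^ 2) : ℝ) + 1) ^ 3 := by positivity
    have hq : 3 * E ≤ 2 ^ j / (64 * ((Nat.log 2 (2 * (Lf j) ^ 2) : ℝ) + 1) ^ 3) := by
      rw [le_div_iff₀ hdpos, ← hEE]
      nlinarith
    have hLn : 2 * ((Lf j : ℕ) : ℝ) ^ 2 ≤ n := by
      have : 2 * (Lf j) ^ 2 ≤ n := by
        calc 2 * (Lf j) ^ 2 ≤ (Lf j) ^ 6 * (Lf j) ^ 2 := by
              apply Nat.mul_le_mul_right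
              calc 2 ≤ 2 ^ 6 := by norm_num
                _ ≤ (Lf j) ^ 6 := Nat.pow_le_pow_left hL2 6
          _ = (Lf j) ^ 8 := by ring
          _ ≤ n := hjn
      exact_mod_cast this
    have hfin : (n : ℝ) * 2 ^ j / (64 * ((Nat.log 2 (2 * (Lf j) ^ 2) : ℝ) + 1) ^ 3) =
        n * (2 ^ j / (64 * ((Nat.log 2 (2 * (Lf j) ^ 2) : ℝ) + 1) ^ 3)) := by ring
    rw [hfin]
    have h5 := mul_le_mul_of_nonneg_left hq hn0.le
    nlinarith

end H306G.F275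

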