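import Pool.Agent.H306G.Defs

set_option autoImplicit false
open Finset

namespace H306G

theorem grid_card (L : ℕ) : (grid L).card = L ^ 2 := by
  classical
  unfold grid
  rw [card_image_of_injective, card_product, card_range, sq]
  rintro ⟨a, b⟩ ⟨a', b'⟩ h
  have h1 := congrArg Complex.re h
  have h2 := congrArg Complex.im h
  simp at h1 h2
  simp [h1, h2]

theorem om_scale (X : Finset ℂ) (r : ℝ) (hr : 0 < r) (d : ℝ) :
    om (X.image (fun z => (r : ℂ) * z)) d = om X (d / r) := by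
  classical
  unfold om
  have hinj : Function.Injective (fun p : ℂ × ℂ => ((r : ℂ) * p.1, (r : ℂ) * p.2)) := by
    rintro ⟨a, b⟩ ⟨a', b'⟩ h
    have hr' : (r : ℂ) ≠ 0 := by exact_mod_cast hr.ne'
    simp only [Prod.mk.injEq] at h
    ext1
    · exact mul_left_cancel₀ hr' h.1
    · exact mul_left_cancel₀ hr' h.2
  have hci := card_image_of_injective ((X ×ˢ X).filter (fun p => dist p.1 p.2 = d / r)) hinj
  rw [← hci]
  congr 1
  ext ⟨u, v⟩
  simp only [mem_filter, mem_product, mem_image, Prod.mk.injEq, Prod.exists]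
  constructor
  · rintro ⟨⟨⟨a, ha, rfl⟩, ⟨b, hb, rfl⟩⟩, h⟩
    refine ⟨a, b, ⟨⟨ha, hb⟩, ?_⟩, rfl, rfl⟩
    rw [dist_eq_norm, ← mul_sub, norm_mul, Complex.norm_real, Real.norm_eq_abs,
      abs_of_pos hr] at h
    rw [dist_eq_norm, eq_div_iff hr.ne', ← h]; ring
  · rintro ⟨a, b, ⟨⟨ha, hb⟩, h⟩, rfl, rfl⟩
    refine ⟨⟨⟨a, ha, rfl⟩, ⟨b, hb, rfl⟩⟩, ?_⟩
    rw [dist_eq_norm, eq_div_iff hr.ne'] at h
    rw [dist_eq_norm, ← mul_sub, norm_mul, Complex.norm_real, Real.norm_eq_abs,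
      abs_of_pos hr, ← h]; ring

theorem om_zero_singleton (d : ℝ) (hd : 0 < d) : om {0} d = 0 := by
  classical
  unfold om
  rw [card_eq_zero, filter_eq_empty_iff]
  rintro ⟨a, b⟩ h
  simp only [mem_product, mem_singleton] at h
  simp [h.1, h.2]
  exact hd.ne

theorem grid_supp (L : ℕ) (s : ℝ) (hs : 0 < s) (h : om (grid L) (Real.sqrt s) ≠ 0) :
    ∃ k : ℕ, 1 ≤ k ∧ k ≤ 2 * L ^ 2 ∧ s = k := by
  classical
  unfold om at h
  obtain ⟨⟨u, v⟩, huv⟩ := card_ne_zero.1 h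
  rw [mem_filter, mem_product] at huv
  obtain ⟨⟨hu, hv⟩, hd⟩ := huv
  unfold grid at hu hv
  simp only [mem_image, mem_product, mem_range, Prod.exists] at hu hv
  obtain ⟨a, b, ⟨ha, hb⟩, rfl⟩ := hu
  obtain ⟨a', b', ⟨ha', hb'⟩, rfl⟩ := hv
  have h1 : s = ((a : ℝ) - a') ^ 2 + ((b : ℝ) - b') ^ 2 := by
    have h2 : s = (Real.sqrt s) ^ 2 := (Real.sq_sqrt hs.le).symm
    rw [h2, ← hd]
    simp only
    rw [dist_eq_norm, ← Complex.normSq_eq_norm_sq, Complex.normSq_apply]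
    simp
    ring
  have h3 : s = (((((a : ℤ) - a') ^ 2 + ((b : ℤ) - b') ^ 2).toNat : ℕ) : ℝ) := by
    have h4 : (0 : ℤ) ≤ ((a : ℤ) - a') ^ 2 + ((b : ℤ) - b') ^ 2 := by positivity
    have h5 : ((((((a : ℤ) - a') ^ 2 + ((b : ℤ) - b') ^ 2).toNat : ℕ) : ℤ) : ℝ) =
        ((((a : ℤ) - a') ^ 2 + ((b : ℤ) - b') ^ 2 : ℤ) : ℝ) := by
      rw [Int.toNat_of_nonneg h4]
    rw [h1]
    rw [← Int.cast_natCast (R := ℝ) ((((a : ℤ) - a') ^ 2 + ((b : ℤ) - b') ^ 2).toNat), h5]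
    push_cast
    ring
  refine ⟨_, ?_, ?_, h3⟩
  · by_contra hcon
    have : (((a : ℤ) - a') ^ 2 + ((b : ℤ) - b') ^ 2).toNat = 0 := by omega
    rw [this] at h3
    simp at h3
    linarith
  · have e1 : ((a : ℤ) - a') ^ 2 ≤ (L : ℤ) ^ 2 := by
      apply sq_le_sq'
      · have : (a' : ℤ) < L := by exact_mod_cast ha'
        have : (0 : ℤ) ≤ a := by positivity
        linarith
      · have : (a : ℤ) < L := by exact_mod_cast ha
        have : (0 : ℤ) ≤ a' := by positivity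
        linarith
    have e2 : ((b : ℤ) - b') ^ 2 ≤ (L : ℤ) ^ 2 := by
      apply sq_le_sq'
      · have : (b' : ℤ) < L := by exact_mod_cast hb'
        have : (0 : ℤ) ≤ b := by positivity
        linarith
      · have : (b : ℤ) < L := by exact_mod_cast hb
        have : (0 : ℤ) ≤ b' := by positivity
        linarith
    have e3 : ((a : ℤ) - a') ^ 2 + ((b : ℤ) - b') ^ 2 ≤ ((2 * L ^ 2 : ℕ) : ℤ) := by
      push_cast; linarith
    exact Int.toNat_le.2 e3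

theorem gap_main (hA : A_stmt) (hC : C_stmt) (hD : D_stmt) (hE : E_stmt) (hF : F_stmt) :
    ∃ c : ℝ, 0 < c ∧ ∃ N : ℕ, ∀ n : ℕ, N ≤ n → ∃ X : Finset ℂ, X.card = n ∧
      ∃ d0 : ℝ, 0 < d0 ∧ ∀ d : ℝ, 0 < d → d ≠ d0 →
        2 * (n : ℝ) ^ (1 + c / Real.log (Real.log n)) ≤ (om X d0 : ℝ) - om X d := by
  classical
  obtain ⟨c, hc, N, hF⟩ := hF
  refine ⟨c, hc, N, fun n hn => ?_⟩
  obtain ⟨j, L, hj, hjp, hL, hLn, hFn⟩ := hF n hn
  have hA' := hA (j ^ 2) (Nat.one_le_pow _ _ hj)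
  set P := (range (4 * (j ^ 2) ^ 2 + 2)).filter (fun p => p.Prime ∧ p % 4 = 1) with hP
  have hw : j ≤ P.card := by
    by_contra hcon
    push Not at hcon
    have h1 : (4 * (j ^ 2) ^ 2 + 1) ^ (2 * P.card) ≤ (4 * (j ^ 2) ^ 2 + 1) ^ (2 * j) :=
      Nat.pow_le_pow_right (by positivity) (by omega)
    omega
  obtain ⟨Dp, hDp, hDc⟩ := exists_subset_card_eq hw
  have hDprime : ∀ p ∈ Dp, p.Prime ∧ p % 4 = 1 := fun p hp => (mem_filter.1 (hDp hp)).2
  have hprodle : ∏ p ∈ Dp, p ≤ (4 * (j ^ 2) ^ 2 + 1) ^ j := by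
    have hpp : ∏ p ∈ Dp, p ≤ (4 * (j ^ 2) ^ 2 + 1) ^ Dp.card := by
      apply prod_le_pow_card
      intro p hp
      have := mem_range.1 (mem_filter.1 (hDp hp)).1
      omega
    rwa [hDc] at hpp
  have hN4 : 4 * ∏ p ∈ Dp, p ≤ L ^ 2 := by
    have h1 : (4 * (j ^ 2) ^ 2 + 1) ^ j ≤ ((2 * j ^ 2 + 1) ^ 2) ^ j :=
      Nat.pow_le_pow_left (by nlinarith) j
    have h2 : L ^ 2 = 4 * ((2 * j ^ 2 + 1) ^ 2) ^ j := by
      rw [hL, mul_pow, ← pow_mul, ← pow_mul, mul_comm j 2]; norm_num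
    rw [h2]
    exact Nat.mul_le_mul_left 4 (hprodle.trans h1)
  have hC' := hC Dp L hDprime hN4
  rw [hDc] at hC'
  set Np : ℕ := ∏ p ∈ Dp, p with hNp
  have hNpos : 0 < Np := prod_pos (fun p hp => (hDprime p hp).1.pos)
  have hLpos : 0 < L := by rw [hL]; positivity
  let f : ℝ → ℕ := fun s => om (grid L) (Real.sqrt s)
  have hfM : 0 < f (Np : ℝ) := by
    have : 0 < 2 ^ j * L ^ 2 := by positivity
    show 0 < om (grid L) (Real.sqrt (Np : ℝ))
    omega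
  obtain ⟨T, hTne, hTS, hT⟩ := hD (2 * L ^ 2) f (by nlinarith) (fun s hs h => grid_supp L s hs h)
    (Np : ℝ) (by exact_mod_cast hNpos) hfM
  have hTc : 0 < T.card := hTne.card_pos
  have hTc2 : T.card ≤ 2 * L ^ 2 := by
    have : T ⊆ Icc 1 (2 * L ^ 2) := fun b hb => mem_Icc.2 (hTS b hb)
    simpa using card_le_card this
  set q : ℕ := T.card * L ^ 2 with hq
  have hqpos : 0 < q := by positivity
  let Y : ℕ → Finset ℂ := fun b => (grid L).image (fun z => ((1 / Real.sqrt (b : ℝ) : ℝ) : ℂ) * z)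
  have hYom : ∀ b ∈ T, ∀ d : ℝ, 0 < d → om (Y b) d = f ((b : ℝ) * d ^ 2) := by
    intro b hb d hd
    have hb0 : (0 : ℝ) < b := by exact_mod_cast (hTS b hb).1
    have hsb : 0 < Real.sqrt (b : ℝ) := Real.sqrt_pos.2 hb0
    show om ((grid L).image (fun z => ((1 / Real.sqrt (b : ℝ) : ℝ) : ℂ) * z)) d =
      om (grid L) (Real.sqrt ((b : ℝ) * d ^ 2))
    rw [om_scale _ _ (by positivity)]
    congr 1
    rw [Real.sqrt_mul hb0.le, Real.sqrt_sq hd.le]
    field_simp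
  have hYcard : ∀ b ∈ T, (Y b).card = L ^ 2 := by
    intro b hb
    have hb0 : (0 : ℝ) < b := by exact_mod_cast (hTS b hb).1
    have hsb : 0 < Real.sqrt (b : ℝ) := Real.sqrt_pos.2 hb0
    show ((grid L).image (fun z => ((1 / Real.sqrt (b : ℝ) : ℝ) : ℂ) * z)).card = _
    rw [card_image_of_injective, grid_card]
    intro z z' hz
    have : ((1 / Real.sqrt (b : ℝ) : ℝ) : ℂ) ≠ 0 := by
      have : (1 / Real.sqrt (b : ℝ) : ℝ) ≠ 0 := by positivity
      exact_mod_cast this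
    exact mul_left_cancel₀ this hz
  set t : ℕ := n / q with ht
  set r : ℕ := n % q with hr
  have hnqr : t * q + r = n := by rw [ht, hr, mul_comm]; exact Nat.div_add_mod n q
  let l0 : List (Finset ℂ) := T.toList.map Y
  let l : List (Finset ℂ) := (List.replicate t l0).flatten ++ List.replicate r {0}
  have hl : ∀ Z ∈ l, Z.card ≤ L ^ 2 := by
    intro Z hZ
    rcases List.mem_append.1 hZ with h | h
    · obtain ⟨l', hl', hZ'⟩ := List.mem_flatten.1 h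
      have := List.eq_of_mem_replicate hl'
      rw [this] at hZ'
      obtain ⟨b, hb, rfl⟩ := List.mem_map.1 hZ'
      exact (hYcard b (by simpa using hb)).le
    · have := List.eq_of_mem_replicate h
      rw [this]
      simp
      exact Nat.one_le_pow _ _ hLpos
  have hmapsum : ∀ F : Finset ℂ → ℕ, (l.map F).sum = t * (∑ b ∈ T, F (Y b)) + r * F {0} := by
    intro F
    have h0 : (l0.map F).sum = ∑ b ∈ T, F (Y b) := by
      show ((T.toList.map Y).map F).sum = _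
      rw [List.map_map]
      exact Finset.sum_map_toList T (F ∘ Y)
    show (((List.replicate t l0).flatten ++ List.replicate r {0}).map F).sum = _
    rw [List.map_append, List.sum_append, List.map_flatten, List.sum_flatten, List.map_replicate,
      List.map_replicate, List.sum_replicate, List.map_replicate, List.sum_replicate, h0]
    simp
  obtain ⟨X, hXc, hX⟩ := hE (L ^ 2) l hl
  refine ⟨X, ?_, 1, one_pos, ?_⟩
  · rw [hXc, hmapsum card, card_singleton, sum_congr rfl hYcard, sum_const, smul_eq_mul]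
    rw [mul_one]
    exact hnqr
  intro d hd hd1
  have h1 := (hX 1 one_pos).1
  have h2 := (hX d hd).2
  rw [hmapsum (fun Z => om Z 1), om_zero_singleton 1 one_pos,
    sum_congr rfl (fun b hb => hYom b hb 1 one_pos)] at h1
  rw [hmapsum (fun Z => om Z d), om_zero_singleton d hd,
    sum_congr rfl (fun b hb => hYom b hb d hd)] at h2
  have h3 := hT (d ^ 2) (by positivity) (by
    intro h
    apply hd1
    nlinarith [sq_nonneg (d - 1), sq_nonneg (d + 1)])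
  have h1r : (t : ℝ) * ∑ b ∈ T, (f (b : ℝ) : ℝ) ≤ om X 1 := by
    have h4 : t * ∑ b ∈ T, f (b : ℝ) ≤ om X 1 := by
      have : ∀ b ∈ T, f ((b : ℝ) * 1 ^ 2) = f (b : ℝ) := fun b _ => by norm_num
      rw [sum_congr rfl this] at h1
      omega
    have h5 : ((t * ∑ b ∈ T, f (b : ℝ) : ℕ) : ℝ) ≤ om X 1 := by exact_mod_cast h4
    push_cast at h5
    exact h5
  have h2r : (om X d : ℝ) ≤ (t : ℝ) * ∑ b ∈ T, (f ((b : ℝ) * d ^ 2) : ℝ) + 2 * (L : ℝ) ^ 2 := by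
    have h5 : (om X d : ℝ) ≤ ((t * ∑ b ∈ T, f ((b : ℝ) * d ^ 2) + r * 0 + 2 * L ^ 2 : ℕ) : ℝ) := by
      exact_mod_cast h2
    push_cast at h5
    linarith
  set S1 : ℝ := ∑ b ∈ T, (f (b : ℝ) : ℝ)
  set S2 : ℝ := ∑ b ∈ T, (f ((b : ℝ) * d ^ 2) : ℝ)
  set ℓ : ℝ := (Nat.log 2 (2 * L ^ 2) : ℝ) + 1 with hℓ
  have hℓpos : 0 < ℓ := by positivity
  have hMr : (2 : ℝ) ^ j * (L : ℝ) ^ 2 ≤ 4 * (f (Np : ℝ) : ℝ) := by exact_mod_cast hC'
  -- t * q >= n / 2
  have htq : (n : ℝ) ≤ 2 * ((t : ℝ) * (T.card * (L : ℝ) ^ 2)) := by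
    have h6 : r < q := Nat.mod_lt _ hqpos
    have h7 : q ≤ 2 * L ^ 4 := by
      rw [hq]; nlinarith [Nat.zero_le (L ^ 2)]
    have h8 : n ≤ 2 * (t * (T.card * L ^ 2)) := by
      rw [← hq]
      omega
    exact_mod_cast h8
  have h9 : (n : ℝ) * 2 ^ j / (64 * ℓ ^ 3) ≤ (t : ℝ) * (S1 - S2) := by
    rw [div_le_iff₀ (by positivity)]
    have h10 : (t : ℝ) * ((f (Np : ℝ) : ℝ) * T.card) ≤ (t : ℝ) * (8 * ℓ ^ 3 * (S1 - S2)) :=
      mul_le_mul_of_nonneg_left h3 (by positivity)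
    have h11 : (t : ℝ) * T.card * ((2 : ℝ) ^ j * (L : ℝ) ^ 2) ≤
        (t : ℝ) * T.card * (4 * (f (Np : ℝ) : ℝ)) :=
      mul_le_mul_of_nonneg_left hMr (by positivity)
    have h12 : (n : ℝ) * 2 ^ j ≤ 2 * ((t : ℝ) * (T.card * (L : ℝ) ^ 2)) * 2 ^ j :=
      mul_le_mul_of_nonneg_right htq (by positivity)
    nlinarith
  linarith

end H306G
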