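import Pool.Agent.H306G.A
import Pool.Agent.H306G.C
import Pool.Agent.H306G.D
import Pool.Agent.H306G.D1
import Pool.Agent.H306G.E
import Pool.Agent.H306G.F

set_option autoImplicit false

/-! Assembly (backup by helper208). -/

namespace H306G.MB

open Finset Filter H306G

lemma grid_inj : Function.Injective (fun p : ℕ × ℕ => (p.1 : ℂ) + (p.2 : ℂ) * Complex.I) := by
  rintro ⟨a, b⟩ ⟨c, d⟩ h
  have h1 := congrArg Complex.re h
  have h2 := congrArg Complex.im h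
  simp at h1 h2
  exact Prod.ext h1 h2

lemma card_grid (L : ℕ) : (grid L).card = L ^ 2 := by
  classical
  unfold grid
  rw [card_image_of_injective _ grid_inj, card_product, card_range]
  ring

lemma sq_le {L a c : ℕ} (ha : a < L) (hc : c < L) : ((a : ℤ) - c).natAbs ^ 2 ≤ L ^ 2 :=
  Nat.pow_le_pow_left (by omega) 2

lemma dist_grid {L : ℕ} {x y : ℂ} (hx : x ∈ grid L) (hy : y ∈ grid L) :
    ∃ k : ℕ, k ≤ 2 * L ^ 2 ∧ dist x y = √(k : ℝ) := by
  classical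
  unfold grid at hx hy
  rw [mem_image] at hx hy
  obtain ⟨⟨a, b⟩, h1, rfl⟩ := hx
  obtain ⟨⟨c, d⟩, h2, rfl⟩ := hy
  rw [mem_product, mem_range, mem_range] at h1 h2
  refine ⟨((a : ℤ) - c).natAbs ^ 2 + ((b : ℤ) - d).natAbs ^ 2, ?_, ?_⟩
  · exact (Nat.add_le_add (sq_le h1.1 h2.1) (sq_le h1.2 h2.2)).trans (le_of_eq (by ring))
  · rw [Complex.dist_eq, Complex.norm_eq_sqrt_sq_add_sq]
    congr 1
    have e : ∀ z : ℤ, ((z.natAbs : ℕ) : ℝ) ^ 2 = (z : ℝ) ^ 2 := by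
      intro z
      rw [Nat.cast_natAbs, Int.cast_abs, sq_abs]
    push_cast
    rw [e, e]
    simp

lemma om_ne_zero {X : Finset ℂ} {d : ℝ} (h : om X d ≠ 0) : ∃ x ∈ X, ∃ y ∈ X, dist x y = d := by
  classical
  unfold om at h
  obtain ⟨p, hp⟩ := card_pos.1 (Nat.pos_of_ne_zero h)
  rw [mem_filter, mem_product] at hp
  exact ⟨p.1, hp.1.1, p.2, hp.1.2, hp.2⟩

/-- the scaled set -/
noncomputable def sc (t : ℝ) (Y : Finset ℂ) : Finset ℂ := by
  classical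
  exact Y.image fun z => (t : ℂ) * z

lemma sc_inj {t : ℝ} (ht : 0 < t) : Function.Injective fun z : ℂ => (t : ℂ) * z :=
  mul_right_injective₀ (by exact_mod_cast ht.ne')

lemma card_sc {t : ℝ} (ht : 0 < t) (Y : Finset ℂ) : (sc t Y).card = Y.card := by
  classical
  unfold sc
  exact card_image_of_injective _ (sc_inj ht)

lemma om_sc {t : ℝ} (ht : 0 < t) (Y : Finset ℂ) (d : ℝ) : om (sc t Y) d = om Y (d / t) := by
  classical
  unfold om sc
  symm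
  refine card_bij (fun p _ => ((t : ℂ) * p.1, (t : ℂ) * p.2)) ?_ ?_ ?_
  · rintro ⟨x, y⟩ h
    rw [mem_filter, mem_product] at h ⊢
    refine ⟨⟨mem_image_of_mem _ h.1.1, mem_image_of_mem _ h.1.2⟩, ?_⟩
    simp only at h ⊢
    rw [Complex.dist_eq, ← mul_sub, norm_mul, Complex.norm_real, Real.norm_of_nonneg ht.le, ← Complex.dist_eq, h.2]
    field_simp
  · rintro ⟨x, y⟩ - ⟨x', y'⟩ - h
    simp only [Prod.mk.injEq] at h
    exact Prod.ext (sc_inj ht h.1) (sc_inj ht h.2)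
  · rintro ⟨x', y'⟩ h
    rw [mem_filter, mem_product] at h
    obtain ⟨⟨h1, h2⟩, h3⟩ := h
    simp only at h1 h2 h3
    obtain ⟨x, hx, rfl⟩ := mem_image.1 h1
    obtain ⟨y, hy, rfl⟩ := mem_image.1 h2
    refine ⟨(x, y), ?_, rfl⟩
    rw [mem_filter, mem_product]
    refine ⟨⟨hx, hy⟩, ?_⟩
    simp only
    rw [Complex.dist_eq, ← mul_sub, norm_mul, Complex.norm_real, Real.norm_of_nonneg ht.le, ← Complex.dist_eq] at h3
    rw [← h3]
    field_simp

lemma om_singleton (z : ℂ) {d : ℝ} (hd : 0 < d) : om {z} d = 0 := by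
  by_contra h
  obtain ⟨x, hx, y, hy, hxy⟩ := om_ne_zero h
  rw [mem_singleton] at hx hy
  rw [hx, hy, dist_self] at hxy
  linarith

lemma sum_list (m r : ℕ) (T : Finset ℕ) (Y : ℕ → Finset ℂ) (Z : Finset ℂ) (g : Finset ℂ → ℕ) :
    (((List.replicate m (T.toList.map Y)).flatten ++ List.replicate r Z).map g).sum =
      m * ∑ b ∈ T, g (Y b) + r * g Z := by
  rw [List.map_append, List.sum_append, List.map_flatten, List.sum_flatten, List.map_replicate, List.map_replicate,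
    List.sum_replicate, List.map_replicate, List.sum_replicate, List.map_map, smul_eq_mul, smul_eq_mul]
  congr 2
  exact Finset.sum_map_toList T fun b => g (Y b)

theorem main : ∃ c : ℝ, 0 < c ∧ ∃ N : ℕ, ∀ n : ℕ, N ≤ n → ∃ X : Finset ℂ, X.card = n ∧
    ∀ d : ℝ, 0 < d → d ≠ 1 →
      2 * (n : ℝ) ^ (1 + c / Real.log (Real.log n)) ≤ (om X 1 : ℝ) - om X d := by
  obtain ⟨c, hc, N, hF⟩ := F_thm
  refine ⟨c, hc, N, fun n hn => ?_⟩
  obtain ⟨j, L, hj, hjp, hL, hLn, hfin⟩ := hF n hn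
  have hL1 : 1 ≤ L := by
    rw [hL]
    have : 1 ≤ (2 * j ^ 2 + 1) ^ j := Nat.one_le_pow _ _ (by positivity)
    omega
  -- the primes
  have hA := A_thm (j ^ 2) (Nat.one_le_pow _ _ hj)
  have hw : j < ((range (4 * (j ^ 2) ^ 2 + 2)).filter (fun p => p.Prime ∧ p % 4 = 1)).card := by
    have h1 := hjp.trans_le hA
    have h2 : 1 < 4 * (j ^ 2) ^ 2 + 1 := by
      have : 0 < (j ^ 2) ^ 2 := by positivity
      omega
    have h3 := (Nat.pow_lt_pow_iff_right h2).1 h1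
    omega
  obtain ⟨D, hD, hDc⟩ := exists_subset_card_eq hw.le
  have hDp : ∀ p ∈ D, p.Prime ∧ p % 4 = 1 := fun p hp => (mem_filter.1 (hD hp)).2
  have hDle : ∀ p ∈ D, p ≤ 4 * (j ^ 2) ^ 2 + 1 := fun p hp => by
    have := mem_range.1 (mem_filter.1 (hD hp)).1
    omega
  have hprod : 4 * (∏ p ∈ D, p) ≤ L ^ 2 := by
    have h1 := prod_le_pow_card D (fun p => p) _ hDle
    rw [hDc] at h1
    have h2 : (4 * (j ^ 2) ^ 2 + 1) ^ j ≤ ((2 * j ^ 2 + 1) ^ 2) ^ j := by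
      apply Nat.pow_le_pow_left
      have : (2 * j ^ 2 + 1) ^ 2 = 4 * (j ^ 2) ^ 2 + 1 + 4 * j ^ 2 := by ring
      omega
    have h3 : L ^ 2 = 4 * ((2 * j ^ 2 + 1) ^ 2) ^ j := by
      rw [hL, mul_pow, ← pow_mul, ← pow_mul, mul_comm j 2]
      norm_num
    rw [h3]
    exact Nat.mul_le_mul_left _ (h1.trans h2)
  have hC := C_thm D L hDp hprod
  rw [hDc] at hC
  -- the multiplicities
  obtain ⟨f, hf⟩ : ∃ f : ℝ → ℕ, ∀ s, f s = om (grid L) (√s) := ⟨_, fun _ => rfl⟩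
  obtain ⟨s0, hs0⟩ : ∃ s0 : ℝ, s0 = ((∏ p ∈ D, p : ℕ) : ℝ) := ⟨_, rfl⟩
  have hs0p : 0 < s0 := by
    rw [hs0]
    exact_mod_cast prod_pos fun p hp => (hDp p hp).1.pos
  rw [← hs0, ← hf] at hC
  have hfs0 : 0 < f s0 := by
    have : 0 < 2 ^ j * L ^ 2 := by positivity
    omega
  obtain ⟨T, hTn, hTS, hT⟩ := D_thm D1_thm (2 * L ^ 2) f (by nlinarith) (by
    intro s hs hfs
    rw [hf] at hfs
    obtain ⟨x, hx, y, hy, hxy⟩ := om_ne_zero hfs
    obtain ⟨k, hk, hkd⟩ := dist_grid hx hy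
    rw [hkd] at hxy
    have hsk : s = k := by
      have := congrArg (fun t => t ^ 2) hxy
      beta_reduce at this
      rw [Real.sq_sqrt (Nat.cast_nonneg _), Real.sq_sqrt hs.le] at this
      exact this.symm
    refine ⟨k, ?_, hk, hsk⟩
    rw [hsk] at hs
    exact_mod_cast hs) s0 hs0p hfs0
  have hTc : 0 < T.card := card_pos.2 hTn
  have hTcS : T.card ≤ 2 * L ^ 2 := by
    have h1 : T ⊆ Icc 1 (2 * L ^ 2) := fun b hb => mem_Icc.2 (hTS b hb)
    have := card_le_card h1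
    rwa [Nat.card_Icc, Nat.add_sub_cancel] at this
  -- the list
  obtain ⟨q, hq⟩ : ∃ q : ℕ, q = T.card * L ^ 2 := ⟨_, rfl⟩
  have hq0 : 0 < q := by rw [hq]; positivity
  have hqn : 2 * q ≤ n := by
    rw [hq]
    calc 2 * (T.card * L ^ 2) ≤ 2 * (2 * L ^ 2 * L ^ 2) := Nat.mul_le_mul_left _ (Nat.mul_le_mul_right _ hTcS)
      _ = 4 * L ^ 4 := by ring
      _ ≤ n := hLn
  obtain ⟨Y, hY⟩ : ∃ Y : ℕ → Finset ℂ, ∀ b, Y b = sc ((√(b : ℝ))⁻¹) (grid L) := ⟨_, fun _ => rfl⟩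
  have hbp : ∀ b ∈ T, 0 < (√(b : ℝ))⁻¹ := fun b hb => by
    have : (1 : ℝ) ≤ b := by exact_mod_cast (hTS b hb).1
    positivity
  have hYc : ∀ b ∈ T, (Y b).card = L ^ 2 := fun b hb => by rw [hY, card_sc (hbp b hb), card_grid]
  have hYo : ∀ b ∈ T, ∀ d : ℝ, 0 < d → om (Y b) d = f ((b : ℝ) * d ^ 2) := fun b hb d hd => by
    rw [hY, om_sc (hbp b hb), hf]
    congr 1
    rw [div_inv_eq_mul, Real.sqrt_mul (Nat.cast_nonneg _), Real.sqrt_sq hd.le, mul_comm]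
  obtain ⟨l, hl⟩ : ∃ l : List (Finset ℂ), l = (List.replicate (n / q) (T.toList.map Y)).flatten ++
      List.replicate (n % q) ({0} : Finset ℂ) := ⟨_, rfl⟩
  obtain ⟨X, hXc, hX⟩ := E_thm (L ^ 2) l (by
    intro W hW
    rw [hl, List.mem_append] at hW
    rcases hW with hW | hW
    · obtain ⟨l', h1, h2⟩ := List.mem_flatten.1 hW
      rw [List.eq_of_mem_replicate h1] at h2
      obtain ⟨b, hb, rfl⟩ := List.mem_map.1 h2
      rw [hYc b (mem_toList.1 hb)]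
    · rw [List.eq_of_mem_replicate hW, card_singleton]
      exact Nat.one_le_pow _ _ hL1)
  have hsum : ∀ d : ℝ, 0 < d → (l.map (fun W => om W d)).sum = (n / q) * ∑ b ∈ T, f ((b : ℝ) * d ^ 2) := by
    intro d hd
    rw [hl, sum_list, om_singleton _ hd, mul_zero, add_zero]
    congr 1
    exact sum_congr rfl fun b hb => hYo b hb d hd
  refine ⟨X, ?_, fun d hd hd1 => ?_⟩
  · rw [hXc, hl]
    have := sum_list (n / q) (n % q) T Y {0} Finset.card
    rw [this, sum_congr rfl hYc, sum_const, smul_eq_mul, ← hq, card_singleton, mul_one]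
    exact Nat.div_add_mod' n q
  · refine hfin.trans ?_
    have h1 := (hX 1 one_pos).1
    have h2 := (hX d hd).2
    rw [hsum 1 one_pos] at h1
    rw [hsum d hd] at h2
    simp only [one_pow, mul_one] at h1
    have h3 := hT (d ^ 2) (by positivity) (fun h => hd1 (by
      exact (pow_eq_one_iff_of_nonneg hd.le two_ne_zero).1 h))
    obtain ⟨Q, hQ⟩ : ∃ Q : ℝ, Q = ((Nat.log 2 (2 * L ^ 2) : ℝ) + 1) ^ 3 := ⟨_, rfl⟩
    have hQ0 : 0 < Q := by rw [hQ]; positivity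
    rw [← hQ] at h3 ⊢
    obtain ⟨A, hAA⟩ : ∃ A : ℕ, A = ∑ b ∈ T, f (b : ℝ) := ⟨_, rfl⟩
    obtain ⟨B, hBB⟩ : ∃ B : ℕ, B = ∑ b ∈ T, f ((b : ℝ) * d ^ 2) := ⟨_, rfl⟩
    have eA : ∑ b ∈ T, (f (b : ℝ) : ℝ) = (A : ℝ) := by rw [hAA]; push_cast; rfl
    have eB : ∑ b ∈ T, (f ((b : ℝ) * d ^ 2) : ℝ) = (B : ℝ) := by rw [hBB]; push_cast; rfl
    rw [eA, eB] at h3
    rw [← hAA] at h1
    rw [← hBB] at h2
    obtain ⟨m, hm⟩ : ∃ m : ℕ, m = n / q := ⟨_, rfl⟩
    rw [← hm] at h1 h2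
    have h1' : (m : ℝ) * A ≤ om X 1 := by exact_mod_cast h1
    have h2' : (om X d : ℝ) ≤ m * B + 2 * (L : ℝ) ^ 2 := by exact_mod_cast h2
    have hmq : (n : ℝ) ≤ 2 * (m * q) := by
      have h4 : n < (m + 1) * q := by
        rw [hm]
        have := Nat.lt_div_mul_add (a := n) hq0
        linarith
      have h5 : n ≤ 2 * (m * q) := by nlinarith
      exact_mod_cast h5
    have hqr : (q : ℝ) = T.card * (L : ℝ) ^ 2 := by rw [hq]; push_cast; ring
    have hC' : (2 : ℝ) ^ j * (L : ℝ) ^ 2 ≤ 4 * f s0 := by exact_mod_cast hC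
    have hm0 : (0 : ℝ) ≤ m := Nat.cast_nonneg _
    have hL0 : (0 : ℝ) < (L : ℝ) ^ 2 := by positivity
    have key : (n : ℝ) * 2 ^ j / (64 * Q) ≤ m * ((A : ℝ) - B) := by
      rw [div_le_iff₀ (by positivity)]
      -- n 2^j L² ≤ 2 m q 2^j L² ≤ 8 m q f = 8 m f T L²
      have k1 : (n : ℝ) * (2 ^ j * (L : ℝ) ^ 2) ≤ 2 * (m * q) * (4 * f s0) :=
        mul_le_mul hmq hC' (by positivity) (by positivity)
      rw [hqr] at k1
      have k2 : (n : ℝ) * 2 ^ j ≤ 8 * (m * (f s0 * T.card)) := by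
        have : ((n : ℝ) * 2 ^ j) * (L : ℝ) ^ 2 ≤ (8 * (m * (f s0 * T.card))) * (L : ℝ) ^ 2 := by
          calc ((n : ℝ) * 2 ^ j) * (L : ℝ) ^ 2 = (n : ℝ) * (2 ^ j * (L : ℝ) ^ 2) := by ring
            _ ≤ _ := k1
            _ = _ := by ring
        exact le_of_mul_le_mul_right this hL0
      have k3 := mul_le_mul_of_nonneg_left h3 hm0
      calc (n : ℝ) * 2 ^ j ≤ 8 * (m * (f s0 * T.card)) := k2
        _ ≤ 8 * (m * (8 * Q * (A - B))) := by linarith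
        _ = _ := by ring
    have : (m : ℝ) * ((A : ℝ) - B) = m * A - m * B := by ring
    linarith

end H306G.MB
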